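import Pool.Agent.Lib.MP_056111_lc.CL.Tail

/-!
The first compact witness.
-/

open Set Topology Filter Pointwise

namespace Pool.Agent.Lib.MP_056111_lc.CL

variable {G : Type} [NormedAddCommGroup G] [CompleteSpace G]

/-- The set of moves of one stage. -/
def DA_F (E : Set G) (a : G) : Set G :=
  {0} ∪ ((fun e => a + e) '' (E ∩ Metric.closedBall 0 (‖a‖ / 8)) ∪
    (fun e => -a + e) '' (E ∩ Metric.closedBall 0 (‖a‖ / 8)))

omit [CompleteSpace G] in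
theorem DA_F_countable {E : Set G} (hc : E.Countable) (a : G) : (DA_F E a).Countable :=
  (countable_singleton _).union
    (((hc.mono inter_subset_left).image _).union ((hc.mono inter_subset_left).image _))

omit [CompleteSpace G] in
theorem DA_F_compact {E : Set G} (hE : IsCompact E) (a : G) : IsCompact (DA_F E a) :=
  isCompact_singleton.union
    (((hE.inter_right Metric.isClosed_closedBall).image (by fun_prop)).union
      ((hE.inter_right Metric.isClosed_closedBall).image (by fun_prop)))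

omit [CompleteSpace G] in
theorem DA_F_zero (E : Set G) (a : G) : (0 : G) ∈ DA_F E a := Or.inl rfl

omit [CompleteSpace G] in
theorem DA_F_norm {E : Set G} {a f : G} (hf : f ∈ DA_F E a) :
    ‖f‖ ≤ 9 / 8 * ‖a‖ ∧ (f = 0 ∨ 7 / 8 * ‖a‖ ≤ ‖f‖) := by
  have key : ∀ c e : G, ‖c‖ = ‖a‖ → ‖e‖ ≤ ‖a‖ / 8 →
      ‖c + e‖ ≤ 9 / 8 * ‖a‖ ∧ (c + e = 0 ∨ 7 / 8 * ‖a‖ ≤ ‖c + e‖) := by
    intro c e hc he
    have h1 := norm_add_le c e
    have h2 := norm_sub_le (c + e) e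
    rw [add_sub_cancel_right] at h2
    exact ⟨by linarith, Or.inr (by linarith)⟩
  rcases hf with rfl | ⟨e, he, rfl⟩ | ⟨e, he, rfl⟩
  · exact ⟨by rw [norm_zero]; positivity, Or.inl rfl⟩
  · exact key a e rfl (mem_closedBall_zero_iff.1 he.2)
  · exact key (-a) e (norm_neg a) (mem_closedBall_zero_iff.1 he.2)

theorem DA_rec (hG : ∀ r > 0, ∃ a : G, a ≠ 0 ∧ ‖a‖ < r) {E : Set G} (hc : E.Countable)
    (hE : IsCompact E) :
    ∃ (A : ℕ → G) (Q : ℕ → Set G) (η : ℕ → ℝ), Q 0 = {0} ∧ (∀ j, Q (j + 1) = Q j + DA_F E (A j)) ∧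
      (∀ j, A j ≠ 0) ∧ (∀ j, ‖A (j + 1)‖ ≤ ‖A j‖ / 16) ∧ (∀ j, ‖A j‖ < η j / 2) ∧
      (∀ j : ℕ, ‖A j‖ < 1 / ((j : ℝ) + 1)) ∧
      ∀ j : ℕ, ∀ p ∈ Q j, ∃ y ∈ Q j, ‖p - y‖ < 1 / ((j : ℝ) + 1) ∧
        ∀ q ∈ Q j, ‖q - y‖ < η j → q = y := by
  have step : ∀ (j : ℕ) (s : {s : Set G × ℝ // s.1.Countable ∧ IsCompact s.1 ∧ 0 < s.2}),
      ∃ (η : ℝ) (a : G), (∀ p ∈ s.1.1, ∃ y ∈ s.1.1, ‖p - y‖ < 1 / ((j : ℝ) + 1) ∧
        ∀ q ∈ s.1.1, ‖q - y‖ < η → q = y) ∧ a ≠ 0 ∧ ‖a‖ < η / 2 ∧ ‖a‖ < s.1.2 ∧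
        ‖a‖ < 1 / ((j : ℝ) + 1) := by
    intro j s
    have hj : (0 : ℝ) < 1 / ((j : ℝ) + 1) := by positivity
    obtain ⟨η, hη, h⟩ := exists_iso s.2.1 s.2.2.1 hj
    obtain ⟨a, ha, ha'⟩ := hG (min (η / 2) (min s.1.2 (1 / ((j : ℝ) + 1))))
      (lt_min (by linarith) (lt_min s.2.2.2 hj))
    rw [lt_min_iff, lt_min_iff] at ha'
    exact ⟨η, a, h, ha, ha'.1, ha'.2.1, ha'.2.2⟩
  choose η a h1 h2 h3 h4 h5 using step
  let s : ℕ → {s : Set G × ℝ // s.1.Countable ∧ IsCompact s.1 ∧ 0 < s.2} := fun j =>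
    Nat.rec ⟨({0}, 1), countable_singleton _, isCompact_singleton, one_pos⟩
      (fun j s => ⟨(s.1.1 + DA_F E (a j s), ‖a j s‖ / 16),
        s.2.1.image2 (DA_F_countable hc _) _, s.2.2.1.add (DA_F_compact hE _),
        by have := norm_pos_iff.2 (h2 j s); positivity⟩) j
  exact ⟨fun j => a j (s j), fun j => (s j).1.1, fun j => η j (s j), rfl, fun _ => rfl,
    fun j => h2 j _, fun j => (h4 (j + 1) (s (j + 1))).le, fun j => h3 j _, fun j => h5 j _,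
    fun j => h1 j _⟩

theorem exists_W1 (hG : ∀ r > 0, ∃ a : G, a ≠ 0 ∧ ‖a‖ < r) {E : Set G} (hc : E.Countable)
    (hE : IsCompact E) (h0 : (0 : G) ∈ E) :
    ∃ (a : ℕ → G) (D : Set G), (∀ j, a j ≠ 0) ∧ (∀ j, ‖a (j + 1)‖ ≤ ‖a j‖ / 16) ∧
      IsCompact D ∧ D.Nonempty ∧ W1 E a D := by
  obtain ⟨A, Q, η, hQ0, hQ, hA0, hA, hη, hA1, hiso⟩ := DA_rec hG hc hE
  obtain ⟨T, hT⟩ := exists_tails (fun j => DA_F E (A j)) (fun j => 9 / 8 * ‖A j‖)
    (fun j => DA_F_compact hE _) (fun j => DA_F_zero E _) (fun j x hx => (DA_F_norm hx).1)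
    (fun j => by have := hA j; have := norm_nonneg (A j); linarith)
  have hD : ∀ j, T 0 = Q j + T j := by
    intro j
    induction j with
    | zero => rw [hQ0, singleton_zero, zero_add]
    | succ j ih => rw [hQ, add_assoc, ← (hT j).2.2.1, ih]
  have hD' : ∀ j, T 0 = Q j + (DA_F E (A j) + T (j + 1)) := fun j => by
    rw [← (hT j).2.2.1]; exact hD j
  refine ⟨A, T 0, hA0, hA, (hT 0).1, ⟨0, (hT 0).2.1⟩, fun N => ?_⟩
  refine ⟨⋃ j ∈ {j | N ≤ j}, ⋃ y ∈ {y | y ∈ Q j ∧ ∀ q ∈ Q j, ‖q - y‖ < η j → q = y},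
    Metric.ball y (‖A j‖ / 2),
    isOpen_biUnion fun _ _ => isOpen_biUnion fun _ _ => Metric.isOpen_ball, ?_, ?_⟩
  · intro z hz
    rw [Metric.mem_closure_iff]
    intro ε hε
    obtain ⟨m, hm⟩ := exists_nat_one_div_lt (show 0 < ε / 4 by linarith)
    have hj : 1 / (((max N m : ℕ) : ℝ) + 1) ≤ 1 / ((m : ℝ) + 1) :=
      Nat.one_div_le_one_div (le_max_right N m)
    have hN : N ≤ max N m := le_max_left N m
    generalize max N m = j at hj hN
    have hz' := hz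
    rw [hD j] at hz'
    obtain ⟨p, hp, t, ht, rfl⟩ := hz'
    obtain ⟨y, hy, hpy, hyi⟩ := hiso j p hp
    have hAj := norm_pos_iff.2 (hA0 j)
    refine ⟨y, ⟨mem_biUnion (show j ∈ {j | N ≤ j} from hN) (mem_biUnion
      (show y ∈ {y | y ∈ Q j ∧ ∀ q ∈ Q j, ‖q - y‖ < η j → q = y} from ⟨hy, hyi⟩)
      (Metric.mem_ball_self (by linarith))), ?_⟩, ?_⟩
    · rw [hD j]
      exact ⟨y, hy, 0, (hT j).2.1, add_zero y⟩
    · have h1 := (hT j).2.2.2 t ht
      have h2 := hA1 j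
      have h3 := norm_add_le (p - y) t
      have h4 : p + t - y = p - y + t := by abel
      show dist (p + t) y < ε
      rw [dist_eq_norm, h4]
      linarith
  · rintro z ⟨hO, hz⟩
    simp only [mem_iUnion, mem_ofPred_eq] at hO
    obtain ⟨j, hj, y, ⟨hy, hyi⟩, hzy⟩ := hO
    rw [Metric.mem_ball, dist_eq_norm] at hzy
    rw [hD' j] at hz
    obtain ⟨p, hp, _, ⟨f, hf, t, ht, rfl⟩, rfl⟩ := hz
    have hAj := norm_pos_iff.2 (hA0 j)
    have h1 := (hT (j + 1)).2.2.2 t ht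
    have h2 := hA j
    have h3 := hη j
    obtain ⟨h4, h5⟩ := DA_F_norm hf
    simp only at hzy h1
    have hpy : p = y := by
      refine hyi p hp ?_
      have e : p - y = (p + (f + t) - y) - (f + t) := by abel
      have a1 := norm_sub_le (p + (f + t) - y) (f + t)
      have a2 := norm_add_le f t
      rw [e]
      linarith
    subst hpy
    rw [add_sub_cancel_left] at hzy
    have hf0 : f = 0 := by
      rcases h5 with h5 | h5
      · exact h5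
      · exfalso
        have a1 := norm_sub_le (f + t) t
        rw [add_sub_cancel_right] at a1
        linarith
    subst hf0
    refine ⟨j, hj, ‖A j‖ / 8, by linarith, fun e he hlt => ?_⟩
    have hmem : e ∈ E ∩ Metric.closedBall 0 (‖A j‖ / 8) :=
      ⟨he, mem_closedBall_zero_iff.2 hlt.le⟩
    rw [hD' j]
    constructor
    · refine ⟨p, hp, A j + e + t, ⟨A j + e, Or.inr (Or.inl ⟨e, hmem, rfl⟩), t, ht, rfl⟩, ?_⟩
      simp only
      abel
    · refine ⟨p, hp, -A j + e + t, ⟨-A j + e, Or.inr (Or.inr ⟨e, hmem, rfl⟩), t, ht, rfl⟩, ?_⟩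
      simp only
      abel

end Pool.Agent.Lib.MP_056111_lc.CL
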