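import Pool.Agent.Lib.MP_056111_lc.CL.Tail

/-!
The second compact witness.
-/

open Set Topology Filter Pointwise

namespace Pool.Agent.Lib.MP_056111_lc.CL

variable {G : Type} [NormedAddCommGroup G] [CompleteSpace G]

/-- The finite sums of the first `j` moves. -/
def DB_P (a : ℕ → G) : ℕ → Set G
  | 0 => {0}
  | j + 1 => DB_P a j + {0, a j}

omit [CompleteSpace G] in
theorem DB_two {a f f' : G} (hf : f ∈ ({0, a} : Set G)) (hf' : f' ∈ ({0, a} : Set G)) :
    ‖f - f'‖ ≤ ‖a‖ ∧ (f ≠ f' → ‖f - f'‖ = ‖a‖) := by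
  rcases hf with rfl | rfl <;> rcases hf' with rfl | rfl <;> simp

omit [CompleteSpace G] in
theorem DB_sep {a : ℕ → G} (ha : ∀ j, ‖a (j + 1)‖ ≤ ‖a j‖ / 16) (j : ℕ) :
    ∀ p ∈ DB_P a j, ∀ p' ∈ DB_P a j, p ≠ p' → 16 * ‖a j‖ ≤ ‖p - p'‖ := by
  induction j with
  | zero =>
    rintro p rfl p' rfl h
    exact absurd rfl h
  | succ j ih =>
    rintro _ ⟨p, hp, f, hf, rfl⟩ _ ⟨p', hp', f', hf', rfl⟩ h
    have h1 := ha j
    obtain ⟨h2, h3⟩ := DB_two hf hf'
    by_cases hpp : p = p'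
    · subst hpp
      have h4 := h3 fun e => h (by rw [e])
      show 16 * ‖a (j + 1)‖ ≤ ‖p + f - (p + f')‖
      rw [add_sub_add_left_eq_sub, h4]
      linarith
    · have h4 := ih p hp p' hp' hpp
      have h5 := norm_sub_le (p + f - (p' + f')) (f - f')
      rw [show p + f - (p' + f') - (f - f') = p - p' by abel] at h5
      have h6 := norm_nonneg (a j)
      show 16 * ‖a (j + 1)‖ ≤ ‖p + f - (p' + f')‖
      linarith

omit [CompleteSpace G] in
theorem DB_near {a p p' f f' t t' : G} (h0 : a ≠ 0) (hp : p ≠ p' → 16 * ‖a‖ ≤ ‖p - p'‖)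
    (hf : f ∈ ({0, a} : Set G)) (hf' : f' ∈ ({0, a} : Set G)) (ht : ‖t‖ ≤ ‖a‖ / 8)
    (ht' : ‖t'‖ ≤ ‖a‖ / 8) (h : ‖p + (f + t) - (p' + (f' + t'))‖ < ‖a‖ / 2) : f = f' := by
  obtain ⟨h2, h3⟩ := DB_two hf hf'
  have h4 := norm_sub_le t t'
  have h5 := norm_pos_iff.2 h0
  by_contra hne
  have h6 := h3 hne
  by_cases hpp : p = p'
  · subst hpp
    have h7 := norm_sub_le (p + (f + t) - (p + (f' + t'))) (t - t')
    rw [show p + (f + t) - (p + (f' + t')) - (t - t') = f - f' by abel] at h7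
    linarith
  · have h7 := norm_sub_le (p + (f + t) - (p' + (f' + t'))) ((f - f') + (t - t'))
    rw [show p + (f + t) - (p' + (f' + t')) - ((f - f') + (t - t')) = p - p' by abel] at h7
    have h8 := norm_add_le (f - f') (t - t')
    have h9 := hp hpp
    linarith

theorem exists_W2 {a : ℕ → G} (h0 : ∀ j, a j ≠ 0) (ha : ∀ j, ‖a (j + 1)‖ ≤ ‖a j‖ / 16) :
    ∃ D : Set G, IsCompact D ∧ D.Nonempty ∧ W2 a D := by
  obtain ⟨T, hT⟩ := exists_tails (fun j => ({0, a j} : Set G)) (fun j => ‖a j‖)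
    (fun j => (Set.toFinite _).isCompact) (fun j => Or.inl rfl)
    (fun j x hx => by rcases hx with rfl | rfl <;> simp)
    (fun j => by have := ha j; have := norm_nonneg (a j); linarith)
  have hD : ∀ j, T 0 = DB_P a j + T j := by
    intro j
    induction j with
    | zero => simp [DB_P]
    | succ j ih => rw [ih, (hT j).2.2.1, DB_P, add_assoc]
  have hD' : ∀ j, T 0 = DB_P a j + ({0, a j} + T (j + 1)) := fun j => by
    rw [hD j, ← (hT j).2.2.1]
  have hs : ∀ j, ∀ t ∈ T (j + 1), ‖t‖ ≤ ‖a j‖ / 8 := fun j t ht => by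
    have h1 := (hT (j + 1)).2.2.2 t ht
    have h2 := ha j
    linarith
  refine ⟨T 0, (hT 0).1, ⟨0, (hT 0).2.1⟩, fun x hx j => ?_⟩
  have hpos : 0 < ‖a j‖ / 2 := half_pos (norm_pos_iff.2 (h0 j))
  have m0 : (0 : G) ∈ ({0, a j} : Set G) := Or.inl rfl
  have m1 : a j ∈ ({0, a j} : Set G) := Or.inr rfl
  rw [hD' j] at hx ⊢
  obtain ⟨p, hp, _, ⟨f, hf, t, ht, rfl⟩, rfl⟩ := hx
  rcases hf with rfl | rfl
  · have e : p + (0 + t) + a j = p + (a j + t) := by abel
    refine ⟨a j, Or.inl rfl, ?_, _, hpos, ?_⟩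
    · show p + (0 + t) + a j ∈ _
      rw [e]
      exact add_mem_add hp (add_mem_add m1 ht)
    · rintro _ ⟨p', hp', _, ⟨f', hf', t', ht', rfl⟩, rfl⟩ hw
      change ‖p' + (f' + t') - (p + (0 + t) + a j)‖ < _ at hw
      rw [e] at hw
      obtain rfl := DB_near (h0 j) (DB_sep ha j p' hp' p hp) hf' m1 (hs j t' ht') (hs j t ht) hw
      show p' + (a j + t') - a j ∈ _
      rw [show p' + (a j + t') - a j = p' + (0 + t') by abel]
      exact add_mem_add hp' (add_mem_add m0 ht')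
  · have e : p + (a j + t) + -a j = p + (0 + t) := by abel
    refine ⟨-a j, Or.inr rfl, ?_, _, hpos, ?_⟩
    · show p + (a j + t) + -a j ∈ _
      rw [e]
      exact add_mem_add hp (add_mem_add m0 ht)
    · rintro _ ⟨p', hp', _, ⟨f', hf', t', ht', rfl⟩, rfl⟩ hw
      change ‖p' + (f' + t') - (p + (a j + t) + -a j)‖ < _ at hw
      rw [e] at hw
      obtain rfl := DB_near (h0 j) (DB_sep ha j p' hp' p hp) hf' m0 (hs j t' ht') (hs j t ht) hw
      show p' + (0 + t') - -a j ∈ _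
      rw [show p' + (0 + t') - -a j = p' + (a j + t') by abel]
      exact add_mem_add hp' (add_mem_add m1 ht')

end Pool.Agent.Lib.MP_056111_lc.CL
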