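import Mathlib

/-!
Definitions for the classification of the abelian Polish groups in which the strongly Haar meager
sets are closed under unions.
-/

open Set Topology Filter Pointwise

namespace Pool.Agent.Lib.MP_056111_lc.CL

section Top

variable {G : Type} [AddCommGroup G] [TopologicalSpace G]

/-- Strongly Haar meager sets. -/
def SHM (A : Set G) : Prop :=
  ∃ B : Set G, A ⊆ B ∧ @MeasurableSet G (borel G) B ∧
    ∃ C : Set G, C.Nonempty ∧ IsCompact C ∧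
      ∀ g : G, IsMeagre {x : C | (x : G) ∈ (fun b => b + g) '' B}

/-- Haar meager sets. -/
def HM (A : Set G) : Prop :=
  ∃ B : Set G, A ⊆ B ∧ @MeasurableSet G (borel G) B ∧
    ∃ (K : Type) (_ : MetricSpace K) (_ : CompactSpace K) (_ : Nonempty K) (f : K → G),
      Continuous f ∧ ∀ g : G, IsMeagre (f ⁻¹' ((fun b => b + g) '' B))

/-- Every compact set locally preserves a compact set through `0`. -/
def LH (G : Type) [AddCommGroup G] [TopologicalSpace G] : Prop :=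
  ∀ D : Set G, IsCompact D → ∃ U ∈ 𝓝 (0 : G), ∃ C : Set G, IsCompact C ∧ (0 : G) ∈ C ∧
    ∀ x ∈ C ∩ U, ∀ d ∈ D ∩ U, x + d ∈ C

end Top

section Norm

variable {G : Type} [NormedAddCommGroup G]

/-- Small elements of `E` escape from every portion of every compact set. -/
def Esc (E : Set G) : Prop :=
  ∀ C : Set G, IsCompact C → ∀ x ∈ C, ∀ r > 0, ∃ y ∈ C, ‖y - x‖ < r ∧ ∃ e ∈ E, ‖e‖ < r ∧ y + e ∉ C

/-- No ball around `0` is covered by thin neighbourhoods of compact sets. -/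
def Far (G : Type) [NormedAddCommGroup G] : Prop :=
  ∀ r > 0, ∃ η > 0, ∀ K : Set G, IsCompact K → ∃ τ : G, ‖τ‖ < r ∧ ∀ k ∈ K, η < ‖τ - k‖

/-- Near `x + s`, subtracting `s` maps `C` into `C`. -/
def P (C : Set G) (s x : G) : Prop := ∃ δ > 0, ∀ y ∈ C, ‖y - (x + s)‖ < δ → y - s ∈ C

/-- For all large `j` one of the two moves `a j`, `- a j` can be undone near `x`. -/
def Good (a : ℕ → G) (C : Set G) (x : G) : Prop :=
  ∃ N, ∀ j, N ≤ j → P C (a j) x ∨ P C (-a j) x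

def H1 (E : Set G) (a : ℕ → G) (C : Set G) : Set G :=
  {x | x ∈ C ∧ Good a C x ∧ ∀ r > 0, ∃ e ∈ E, ‖e‖ < r ∧ x + e ∉ C}

def H2 (a : ℕ → G) (C : Set G) : Set G :=
  {x | x ∈ C ∧ ¬ Good a C x ∧
    ∀ j s, (s = a j ∨ s = -a j) → x - s ∈ C → P C s (x - s)}

/-- The property of the first witness. -/
def W1 (E : Set G) (a : ℕ → G) (D : Set G) : Prop :=
  ∀ N, ∃ O : Set G, IsOpen O ∧ D ⊆ closure (O ∩ D) ∧
    ∀ z ∈ O ∩ D, ∃ j, N ≤ j ∧ ∃ δ > 0, ∀ e ∈ E, ‖e‖ < δ → z + a j + e ∈ D ∧ z - a j + e ∈ D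

/-- The property of the second witness. -/
def W2 (a : ℕ → G) (D : Set G) : Prop :=
  ∀ x ∈ D, ∀ j, ∃ s, (s = a j ∨ s = -a j) ∧ x + s ∈ D ∧
    ∃ δ > 0, ∀ w ∈ D, ‖w - (x + s)‖ < δ → w - s ∈ D

end Norm

end Pool.Agent.Lib.MP_056111_lc.CL
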