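import Pool.Agent.Lib.MP_056111_lc.CL.Defs

/-!
The local condition for normed spaces and for groups with many locally compact subgroups.
-/

open Set Topology Filter Pointwise

namespace Pool.Agent.Lib.MP_056111_lc.CL

theorem LH_normed_iff (E : Type) [NormedAddCommGroup E] [NormedSpace ℝ E] :
    LH E ↔ FiniteDimensional ℝ E := by
  refine ⟨fun h => ?_, fun h D _ => ?_⟩
  swap
  · have := FiniteDimensional.proper_real E
    refine ⟨Metric.ball 0 1, Metric.ball_mem_nhds _ one_pos, Metric.closedBall 0 2,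
      isCompact_closedBall _ _, by simp, fun x hx d hd => ?_⟩
    have h1 := mem_ball_zero_iff.1 hx.2
    have h2 := mem_ball_zero_iff.1 hd.2
    rw [mem_closedBall_zero_iff]
    linarith [norm_add_le x d]
  by_contra hfin
  obtain ⟨R, x, hR, hx, hsep⟩ := exists_seq_norm_le_one_le_norm_sub (𝕜 := ℝ) hfin
  have hR0 : 0 < R := by linarith
  have h0 : Tendsto (fun n : ℕ => 1 / ((n : ℝ) + 1) * R) atTop (𝓝 0) := by
    simpa using (tendsto_one_div_add_atTop_nhds_zero_nat (𝕜 := ℝ)).mul_const R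
  have hn : ∀ (a b : ℝ) (n : ℕ), |a| ≤ b → ‖a • x n‖ ≤ b * R := fun a b n hab => by
    rw [norm_smul, Real.norm_eq_abs]
    exact mul_le_mul hab (hx n) (norm_nonneg _) ((abs_nonneg a).trans hab)
  have hd : Tendsto (fun n : ℕ => (1 / ((n : ℝ) + 1)) • x n) atTop (𝓝 0) :=
    squeeze_zero_norm (fun n => hn _ _ n (abs_of_pos (by positivity)).le) h0
  obtain ⟨U, hU, C, hC, h0C, H⟩ := h _ hd.isCompact_insert_range
  obtain ⟨ρ, hρ, hball⟩ := Metric.mem_nhds_iff.1 hU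
  obtain ⟨c, hc, hcR⟩ : ∃ c : ℝ, 0 < c ∧ c * R < ρ :=
    ⟨ρ / (2 * R), by positivity, by
      rw [show ρ / (2 * R) * R = ρ / 2 by field_simp]; linarith⟩
  have hU' : ∀ (a : ℝ) (n : ℕ), 0 ≤ a → a ≤ c * (n + 1) → (a / ((n : ℝ) + 1)) • x n ∈ U := by
    intro a n h1 h2
    refine hball (mem_ball_zero_iff.2 ((hn _ c n ?_).trans_lt hcR))
    rw [abs_of_nonneg (by positivity), div_le_iff₀ (by positivity)]
    exact h2
  have key : ∀ n k : ℕ, (k : ℝ) ≤ c * (n + 1) → ((k : ℝ) / ((n : ℝ) + 1)) • x n ∈ C := by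
    intro n k
    induction k with
    | zero => intro _; simpa using h0C
    | succ k ih =>
      intro hk
      push_cast at hk ⊢
      have hk0 : (0 : ℝ) ≤ k := Nat.cast_nonneg k
      rw [add_div, add_smul]
      exact H _ ⟨ih (by linarith), hU' _ n hk0 (by linarith)⟩ _
        ⟨Or.inr ⟨n, rfl⟩, hU' 1 n zero_le_one (by linarith)⟩
  obtain ⟨a, -, φ, hφ, ha⟩ := hC.tendsto_subseq
    (x := fun n : ℕ => ((⌊c * (n + 1)⌋₊ : ℝ) / ((n : ℝ) + 1)) • x n)
    fun n => key n _ (Nat.floor_le (by positivity))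
  have h1 : Tendsto (fun n : ℕ => c • x n - ((⌊c * (n + 1)⌋₊ : ℝ) / ((n : ℝ) + 1)) • x n)
      atTop (𝓝 0) := by
    refine squeeze_zero_norm (fun n => ?_) h0
    rw [← sub_smul]
    refine hn _ _ n ?_
    have a1 : (0 : ℝ) < n + 1 := by positivity
    have a2 := Nat.floor_le (show 0 ≤ c * (n + 1) by positivity)
    have a3 := Nat.lt_floor_add_one (c * (n + 1))
    rw [show c - (⌊c * (n + 1)⌋₊ : ℝ) / ((n : ℝ) + 1) =
      (c * (n + 1) - ⌊c * (n + 1)⌋₊) / ((n : ℝ) + 1) by field_simp,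
      abs_of_nonneg (div_nonneg (by linarith) a1.le)]
    exact div_le_div_of_nonneg_right (by linarith) a1.le
  have h2 : Tendsto (fun n => c • x (φ n)) atTop (𝓝 a) := by
    simpa [Function.comp_def] using (h1.comp hφ.tendsto_atTop).add ha
  have h3 : Tendsto (fun n => ‖c • x (φ (n + 1)) - c • x (φ n)‖) atTop (𝓝 0) := by
    simpa using ((h2.comp (tendsto_add_atTop_nat 1)).sub h2).norm
  refine absurd (ge_of_tendsto' h3 fun n => ?_) (not_le.2 hc)
  rw [← smul_sub, norm_smul, Real.norm_of_nonneg hc.le]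
  exact le_mul_of_one_le_right hc.le (hsep (hφ (Nat.lt_succ_self n)).ne')

theorem LH_of_hull {G : Type} [AddCommGroup G] [TopologicalSpace G] [IsTopologicalAddGroup G]
    (h : ∀ D : Set G, IsCompact D → ∃ L : AddSubgroup G, LocallyCompactSpace L ∧ D ⊆ L) :
    LH G := by
  intro D hD
  obtain ⟨L, hL, hDL⟩ := h D hD
  obtain ⟨K, hK, hK0⟩ := exists_compact_mem_nhds (0 : L)
  obtain ⟨V, hV, hVK⟩ := (mem_nhds_induced _ _ _).1 hK0
  obtain ⟨U, hU, hUV⟩ := exists_nhds_zero_half (show V ∈ 𝓝 (0 : G) from hV)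
  refine ⟨U, hU, Subtype.val '' K, hK.image continuous_subtype_val,
    ⟨0, mem_of_mem_nhds hK0, rfl⟩, ?_⟩
  rintro _ ⟨⟨x, -, rfl⟩, hx⟩ d hd
  exact ⟨⟨x + d, L.add_mem x.2 (hDL hd.1)⟩, hVK (hUV _ hx _ hd.2), rfl⟩

end Pool.Agent.Lib.MP_056111_lc.CL
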