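import Pool.Agent.Lib.MP_056111_lc.CL.Defs

/-!
The local condition for countable products of countable discrete groups.
-/

open Set Topology Filter Pointwise

namespace Pool.Agent.Lib.MP_056111_lc.CL

theorem ExPi_fin {G : Type} [AddCommGroup G] {T : Set G} (hT : T.Finite)
    (h : ∀ g ∈ T, IsOfFinAddOrder g) : (AddSubgroup.closure T : Set G).Finite := by
  have : Finite T := hT
  have h1 : AddSubgroup.closure T ≤ AddCommGroup.torsion G :=
    (AddSubgroup.closure_le _).2 fun g hg => h g hg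
  have h2 : IsAddTorsion (AddSubgroup.closure T) := fun x => by
    obtain ⟨k, hk, hx⟩ := isOfFinAddOrder_iff_nsmul_eq_zero.1 (h1 x.2)
    exact isOfFinAddOrder_iff_nsmul_eq_zero.2 ⟨k, hk, Subtype.ext hx⟩
  have h3 : Finite (AddSubgroup.closure T) := AddCommGroup.finite_of_fg_isAddTorsion _ h2
  exact h3

theorem LH_pi_iff (H : ℕ → Type) [∀ n, AddCommGroup (H n)] [∀ n, TopologicalSpace (H n)]
    [∀ n, DiscreteTopology (H n)] :
    LH (∀ n, H n) ↔ {n | ∃ g : H n, ¬ IsOfFinAddOrder g}.Finite := by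
  classical
  have hfin : ∀ {C : Set (∀ n, H n)}, IsCompact C → ∀ n, ((fun x => x n) '' C).Finite :=
    fun hC n => (hC.image (continuous_apply n)).finite_of_discrete
  constructor
  · intro h
    by_contra hS
    have hg : ∀ n, ∃ g : H n, (∃ g' : H n, ¬ IsOfFinAddOrder g') → ¬ IsOfFinAddOrder g := by
      intro n
      by_cases hn : ∃ g' : H n, ¬ IsOfFinAddOrder g'
      · exact ⟨hn.choose, fun _ => hn.choose_spec⟩
      · exact ⟨0, fun h' => absurd h' hn⟩
    choose g hg using hg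
    have ht : Tendsto (fun n => (Pi.single n (g n) : ∀ n, H n)) atTop (𝓝 0) := by
      refine tendsto_pi_nhds.2 fun i => tendsto_const_nhds.congr' ?_
      filter_upwards [eventually_gt_atTop i] with n hn
      rw [Pi.single_eq_of_ne hn.ne]
      rfl
    obtain ⟨U, hU, C, hC, h0, hC'⟩ := h _ ht.isCompact_insert_range
    rw [nhds_pi, Filter.mem_pi] at hU
    obtain ⟨I, hI, t, ht', hIU⟩ := hU
    obtain ⟨n, hn, hnI⟩ := (Set.Infinite.sdiff hS hI).nonempty
    have hU' : ∀ y : H n, (Pi.single n y : ∀ n, H n) ∈ U := fun y => hIU fun i hi => by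
      rw [Pi.single_eq_of_ne (fun e : i = n => hnI (e ▸ hi))]
      exact mem_of_mem_nhds (ht' i)
    have hk : ∀ k : ℕ, (Pi.single n (k • g n) : ∀ n, H n) ∈ C := fun k => by
      induction k with
      | zero => rwa [zero_nsmul, Pi.single_zero]
      | succ k ih =>
        rw [succ_nsmul, Pi.single_add]
        exact hC' _ ⟨ih, hU' _⟩ _ ⟨Or.inr ⟨n, rfl⟩, hU' _⟩
    refine Set.infinite_range_of_injective
      (injective_nsmul_iff_not_isOfFinAddOrder.2 (hg n hn)) ((hfin hC n).subset ?_)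
    rintro _ ⟨k, rfl⟩
    exact ⟨_, hk k, Pi.single_eq_same _ _⟩
  · intro hS D hD
    refine ⟨{n | ∃ g : H n, ¬ IsOfFinAddOrder g}.pi fun _ => {0},
      set_pi_mem_nhds hS fun i _ => (isOpen_discrete _).mem_nhds rfl,
      univ.pi fun n => (AddSubgroup.closure ((fun x => x n) '' D ∩ {g | IsOfFinAddOrder g}) :
        Set (H n)),
      isCompact_univ_pi fun n => (ExPi_fin ((hfin hD n).inter_of_left _)
        fun g hg => hg.2).isCompact, fun n _ => AddSubgroup.zero_mem _, ?_⟩
    rintro x ⟨hx, -⟩ d ⟨hd, hd'⟩ n -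
    refine AddSubgroup.add_mem _ (hx n trivial) ?_
    by_cases hn : ∃ g : H n, ¬ IsOfFinAddOrder g
    · have e : d n = 0 := hd' n hn
      rw [e]
      exact AddSubgroup.zero_mem _
    · exact AddSubgroup.subset_closure ⟨⟨d, hd, rfl⟩, by_contra fun h => hn ⟨_, h⟩⟩

end Pool.Agent.Lib.MP_056111_lc.CL
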