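import Pool.Agent.Lib.MP_056111_lc.CL.Defs

/-!
Translating all compact sets apart.
-/

open Set Topology Filter Pointwise

namespace Pool.Agent.Lib.MP_056111_lc.CL

open TopologicalSpace

variable {G : Type} [NormedAddCommGroup G] [CompleteSpace G] [SecondCountableTopology G]

theorem exists_tau {r η : ℝ}
    (h : ∀ K : Set G, IsCompact K → ∃ τ : G, ‖τ‖ < r ∧ ∀ k ∈ K, η < ‖τ - k‖)
    {D : Set G} (hD : IsCompact D) (Φ : ℕ → NonemptyCompacts G) :
    ∃ τ : ℕ → G, (∀ k, ‖τ k‖ < r) ∧ ∀ k l, k ≠ l → ∀ u ∈ (Φ k : Set G), ∀ v ∈ (Φ l : Set G),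
      ∀ d ∈ D, ∀ d' ∈ D, η < ‖u + τ k - (v + τ l) - (d - d')‖ := by
  choose! c hc using h
  let S : G → ℕ → ℕ → Set G := fun t l k =>
    (fun p : (G × G) × (G × G) => t + p.1.1 - p.1.2 + (p.2.1 - p.2.2)) ''
      (((Φ l : Set G) ×ˢ (Φ k : Set G)) ×ˢ (D ×ˢ D))
  have hS : ∀ t l k, IsCompact (S t l k) := fun t l k =>
    (((Φ l).isCompact.prod (Φ k).isCompact).prod (hD.prod hD)).image (by fun_prop)
  let τ : ℕ → G := (wellFounded_lt (α := ℕ)).fix
    fun k ih => c (⋃ l, ⋃ (hl : l < k), S (ih l hl) l k)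
  have hτ : ∀ k, τ k = c (⋃ l, ⋃ (_ : l < k), S (τ l) l k) := fun k =>
    WellFounded.fix_eq _ _ k
  have hK : ∀ k, IsCompact (⋃ l, ⋃ (_ : l < k), S (τ l) l k) := fun k =>
    (Set.finite_lt_nat k).isCompact_biUnion fun l _ => hS _ l k
  have key : ∀ k l, l < k → ∀ u ∈ (Φ k : Set G), ∀ v ∈ (Φ l : Set G),
      ∀ d ∈ D, ∀ d' ∈ D, η < ‖u + τ k - (v + τ l) - (d - d')‖ := by
    intro k l hl u hu v hv d hd d' hd'
    have h1 := (hc _ (hK k)).2 (τ l + v - u + (d - d'))
      (mem_iUnion₂.2 ⟨l, hl, ((v, u), (d, d')), ⟨⟨hv, hu⟩, hd, hd'⟩, rfl⟩)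
    rw [← hτ k] at h1
    have e : u + τ k - (v + τ l) - (d - d') = τ k - (τ l + v - u + (d - d')) := by abel
    rwa [e]
  refine ⟨τ, fun k => ?_, fun k l hkl u hu v hv d hd d' hd' => ?_⟩
  · rw [hτ k]
    exact (hc _ (hK k)).1
  · rcases lt_or_gt_of_ne hkl with hlt | hlt
    · have h1 := key l k hlt v hv u hu d' hd' d hd
      have e : u + τ k - (v + τ l) - (d - d') = -(v + τ l - (u + τ k) - (d' - d)) := by abel
      rwa [e, norm_neg]
    · exact key k l hlt u hu v hv d hd d' hd'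

theorem exists_apart (hG : Far G) {D : Set G} (hD : IsCompact D) :
    ∃ (Z : Set (NonemptyCompacts G × (ℕ → ℕ))) (t : (ℕ → ℕ) → G), IsClosed Z ∧ Continuous t ∧
      (∀ C, ∃ κ, (C, κ) ∈ Z) ∧
      ∀ p ∈ Z, ∀ q ∈ Z, ∀ x ∈ (p.1 : Set G), ∀ y ∈ (q.1 : Set G), ∀ d ∈ D, ∀ d' ∈ D,
        x + t p.2 - (y + t q.2) = d - d' → p = q := by
  choose! e he hK using hG
  let r : ℕ → ℝ := fun n => Nat.rec 1 (fun _ x => min (e x) x / 16) n
  have hrs : ∀ n, r (n + 1) = min (e (r n)) (r n) / 16 := fun n => rfl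
  have hr0 : ∀ n, 0 < r n := by
    intro n
    induction n with
    | zero => exact one_pos
    | succ n ih =>
      rw [hrs]
      have := lt_min (he _ ih) ih
      positivity
  have hstep : ∀ n, 16 * r (n + 1) ≤ r n := fun n => by
    rw [hrs]
    have := min_le_right (e (r n)) (r n)
    linarith
  have hgeo : ∀ n i, r (i + n) ≤ r n * (1 / 2) ^ i := by
    intro n i
    induction i with
    | zero => simp
    | succ i ih =>
      have h1 := hstep (i + n)
      have h2 := hr0 (i + n + 1)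
      rw [Nat.add_right_comm, pow_succ, ← mul_assoc]
      linarith
  have hone : ∀ i, r i ≤ (1 / 2) ^ i := fun i => by
    have := hgeo 0 i
    rwa [show r 0 = 1 from rfl, one_mul] at this
  obtain ⟨Φ, hΦ⟩ := exists_dense_seq (NonemptyCompacts G)
  have hτ := fun n => exists_tau (r := r n) (η := 16 * r (n + 1)) (fun K hK' => by
    obtain ⟨τ, h1, h2⟩ := hK _ (hr0 n) K hK'
    refine ⟨τ, h1, fun k hk => lt_of_le_of_lt ?_ (h2 k hk)⟩
    rw [hrs]
    have := min_le_left (e (r n)) (r n)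
    linarith) hD Φ
  choose τ hτ1 hτ2 using hτ
  have hsum : ∀ κ : ℕ → ℕ, Summable fun n => τ n (κ n) := fun κ =>
    Summable.of_norm_bounded summable_geometric_two fun n => (hτ1 n _).le.trans (hone n)
  have hnear : ∀ (C C' : NonemptyCompacts G) {ρ : ℝ}, dist C C' < ρ → ∀ x ∈ (C : Set G),
      ∃ u ∈ (C' : Set G), ‖x - u‖ < ρ := by
    intro C C' ρ h x hx
    rw [Metric.NonemptyCompacts.dist_eq] at h
    obtain ⟨u, hu, hxu⟩ := Metric.exists_dist_lt_of_hausdorffDist_lt hx h
      (Metric.hausdorffEDist_ne_top_of_nonempty_of_bounded C.nonempty C'.nonempty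
        C.isCompact.isBounded C'.isCompact.isBounded)
    exact ⟨u, hu, by rwa [← dist_eq_norm]⟩
  refine ⟨⋂ n, {p | dist p.1 (Φ (p.2 n)) ≤ 2 * r (n + 1)}, fun κ => ∑' n, τ n (κ n), ?_, ?_,
    fun C => ?_, ?_⟩
  · refine isClosed_iInter fun n => isClosed_le (continuous_fst.dist ?_) continuous_const
    exact (continuous_of_discreteTopology (f := Φ)).comp
      ((continuous_apply n).comp continuous_snd)
  · refine continuous_tsum (fun n => ?_) summable_geometric_two
      fun n κ => (hτ1 n _).le.trans (hone n)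
    exact (continuous_of_discreteTopology (f := τ n)).comp (continuous_apply n)
  · have : ∀ n, ∃ k, dist C (Φ k) < 2 * r (n + 1) := fun n =>
      hΦ.exists_dist_lt C (by have := hr0 (n + 1); positivity)
    choose κ hκ using this
    exact ⟨κ, mem_iInter.2 fun n => (hκ n).le⟩
  · rintro ⟨C, κ⟩ hp ⟨C', κ'⟩ hq x hx y hy d hd d' hd' heq
    have hp' : ∀ n, dist C (Φ (κ n)) ≤ 2 * r (n + 1) := mem_iInter.1 hp
    have hq' : ∀ n, dist C' (Φ (κ' n)) ≤ 2 * r (n + 1) := mem_iInter.1 hq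
    have hκ : κ = κ' := by
      by_contra hne
      have hex : ∃ n, κ n ≠ κ' n := Function.ne_iff.1 hne
      classical
      have hn := Nat.find_spec hex
      have hlt : ∀ m, m < Nat.find hex → κ m = κ' m := fun m hm =>
        not_not.1 (Nat.find_min hex hm)
      generalize Nat.find hex = n at hn hlt
      have h0 := hr0 (n + 1)
      obtain ⟨u, hu, hxu⟩ := hnear C (Φ (κ n)) (ρ := 4 * r (n + 1))
        (by linarith [hp' n]) x hx
      obtain ⟨v, hv, hyv⟩ := hnear C' (Φ (κ' n)) (ρ := 4 * r (n + 1))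
        (by linarith [hq' n]) y hy
      have h1 := hτ2 n _ _ hn u hu v hv d hd d' hd'
      have hs := (hsum κ).sub (hsum κ')
      have h2 := hs.sum_add_tsum_nat_add (n + 1)
      rw [(hsum κ).tsum_sub (hsum κ'), Finset.sum_range_succ,
        Finset.sum_eq_zero (fun m hm => by rw [hlt m (Finset.mem_range.1 hm), sub_self]),
        zero_add] at h2
      have h3 : ‖∑' i, (τ (i + (n + 1)) (κ (i + (n + 1))) - τ (i + (n + 1)) (κ' (i + (n + 1))))‖ ≤
          2 * r (n + 1) * 2 := by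
        refine tsum_of_norm_bounded (hasSum_geometric_two.mul_left (2 * r (n + 1))) fun i => ?_
        refine (norm_sub_le _ _).trans ?_
        have a1 := hτ1 (i + (n + 1)) (κ (i + (n + 1)))
        have a2 := hτ1 (i + (n + 1)) (κ' (i + (n + 1)))
        have a3 := hgeo (n + 1) i
        linarith
      generalize (∑' i, (τ (i + (n + 1)) (κ (i + (n + 1))) -
        τ (i + (n + 1)) (κ' (i + (n + 1))))) = w at h2 h3
      have e1 : u + τ n (κ n) - (v + τ n (κ' n)) - (d - d') = (y - v) - (x - u) - w := by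
        rw [← heq]
        have : (x + ∑' n, τ n (κ n)) - (y + ∑' n, τ n (κ' n)) =
            x - y + (∑' n, τ n (κ n) - ∑' n, τ n (κ' n)) := by abel
        simp only
        rw [this, ← h2]
        abel
      rw [e1] at h1
      have h4 := norm_sub_le (y - v - (x - u)) w
      have h5 := norm_sub_le (y - v) (x - u)
      linarith
    subst hκ
    have hC : C = C' := by
      refine eq_of_forall_dist_le fun ε hε => ?_
      obtain ⟨n, hn⟩ := exists_pow_lt_of_lt_one hε (by norm_num : (1 / 2 : ℝ) < 1)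
      have a1 := dist_triangle_right C C' (Φ (κ n))
      have a2 := hstep n
      have a3 := hone n
      have a4 := hr0 (n + 1)
      linarith [hp' n, hq' n]
    rw [hC]

end Pool.Agent.Lib.MP_056111_lc.CL
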