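import Pool.Agent.Lib.MP_056111_lc.CL.Defs

/-!
Kuratowski-Ulam, and unions of two Haar meager sets.
-/

open Set Topology Filter Pointwise

namespace Pool.Agent.Lib.MP_056111_lc.CL

theorem KU_open {X Y : Type} [TopologicalSpace X] [SecondCountableTopology X] [TopologicalSpace Y]
    {O : Set (X × Y)} (ho : IsOpen O) (hd : Dense O) :
    ∀ᶠ y in residual Y, {x | (x, y) ∈ O} ∈ residual X := by
  obtain ⟨b, hbc, hbe, hb⟩ := TopologicalSpace.exists_countable_basis X
  have key : ∀ V ∈ b, ∀ᶠ y in residual Y, ∃ x ∈ V, (x, y) ∈ O := by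
    intro V hV
    have hVo : IsOpen V := hb.isOpen hV
    have hVn : V.Nonempty := nonempty_iff_ne_empty.2 fun h => hbe (h ▸ hV)
    have h1 : IsOpen (Prod.snd '' (O ∩ V ×ˢ (univ : Set Y))) :=
      isOpenMap_snd _ (ho.inter (hVo.prod isOpen_univ))
    have h2 : Dense (Prod.snd '' (O ∩ V ×ˢ (univ : Set Y))) := by
      rw [dense_iff_inter_open]
      intro W hW hWn
      obtain ⟨p, hp1, hp2⟩ := hd.inter_open_nonempty (V ×ˢ W) (hVo.prod hW) (hVn.prod hWn)
      exact ⟨p.2, hp1.2, p, ⟨hp2, hp1.1, mem_univ _⟩, rfl⟩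
    filter_upwards [residual_of_dense_open h1 h2] with y hy
    obtain ⟨p, ⟨hp1, hp2, -⟩, rfl⟩ := hy
    exact ⟨p.1, hp2, hp1⟩
  filter_upwards [(eventually_countable_ball hbc).2 key] with y hy
  refine residual_of_dense_open (ho.preimage (Continuous.prodMk_left y)) ?_
  rw [hb.dense_iff]
  intro V hV _
  obtain ⟨x, hx1, hx2⟩ := hy V hV
  exact ⟨x, hx1, hx2⟩

theorem KU_res {X Y : Type} [TopologicalSpace X] [SecondCountableTopology X] [TopologicalSpace Y]
    {T : Set (X × Y)} (hT : T ∈ residual (X × Y)) :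
    ∀ᶠ y in residual Y, {x | (x, y) ∈ T} ∈ residual X := by
  obtain ⟨S, hSo, hSd, hSc, hST⟩ := mem_residual_iff.1 hT
  have key : ∀ O ∈ S, ∀ᶠ y in residual Y, {x | (x, y) ∈ O} ∈ residual X :=
    fun O hO => KU_open (hSo O hO) (hSd O hO)
  filter_upwards [(eventually_countable_ball hSc).2 key] with y hy
  have h1 : ∀ᶠ x in residual X, ∀ O ∈ S, (x, y) ∈ O := (eventually_countable_ball hSc).2 hy
  filter_upwards [h1] with x hx
  exact hST (mem_sInter.2 hx)

theorem meagre_of_sections {X Y : Type} [MetricSpace X] [CompactSpace X] [MetricSpace Y]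
    [CompactSpace Y] {S : Set (X × Y)} (hS : @MeasurableSet (X × Y) (borel (X × Y)) S)
    (h : ∀ y, IsMeagre {x | (x, y) ∈ S}) : IsMeagre S := by
  obtain ⟨O, hO, hSO⟩ := @MeasurableSet.residualEq_isOpen (X × Y) _ S (borel (X × Y))
    (@BorelSpace.mk (X × Y) _ (borel (X × Y)) rfl) hS
  have hT : {p | p ∈ S ↔ p ∈ O} ∈ residual (X × Y) := eventuallyEq_set.1 hSO
  rcases O.eq_empty_or_nonempty with rfl | ⟨⟨x0, y0⟩, hp⟩
  · filter_upwards [hT] with p hp
    intro hpS
    exact hp.1 hpS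
  · exfalso
    obtain ⟨U, V, hU, hV, hx0, hy0, hUV⟩ := isOpen_prod_iff.1 hO x0 y0 hp
    obtain ⟨y, hyV, hy⟩ := (dense_of_mem_residual (KU_res hT)).inter_open_nonempty V hV ⟨y0, hy0⟩
    refine not_isMeagre_of_isOpen hU ⟨x0, hx0⟩ ?_
    have h1 : {x | (x, y) ∈ S}ᶜ ∈ residual X := h y
    have h2 : {x | (x, y) ∈ S ↔ (x, y) ∈ O} ∈ residual X := hy
    filter_upwards [h1, h2] with x hx1 hx2
    intro hxU
    exact hx1 (hx2.2 (hUV ⟨hxU, hyV⟩))

variable {G : Type} [NormedAddCommGroup G] [CompleteSpace G] [SecondCountableTopology G]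

theorem HM_of_SHM {A : Set G} (h : SHM A) : HM A := by
  obtain ⟨B, hAB, hB, C, hCn, hC, hm⟩ := h
  exact ⟨B, hAB, hB, C, inferInstance, isCompact_iff_compactSpace.1 hC, hCn.to_subtype,
    Subtype.val, continuous_subtype_val, hm⟩

theorem KU_sum {G : Type} [NormedAddCommGroup G] {B : Set G} (hB : @MeasurableSet G (borel G) B)
    {K L : Type} [MetricSpace K] [CompactSpace K] [MetricSpace L] [CompactSpace L]
    {f : K → G} {f' : L → G} (hf : Continuous f) (hf' : Continuous f')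
    (hm : ∀ g : G, IsMeagre (f ⁻¹' ((fun b => b + g) '' B))) (g : G) :
    IsMeagre {p : K × L | f p.1 + f' p.2 - g ∈ B} := by
  refine meagre_of_sections ?_ fun y => ?_
  · have hc : Continuous fun p : K × L => f p.1 + f' p.2 - g := by fun_prop
    exact hc.borel_measurable hB
  · refine IsMeagre.mono (fun x hx => ?_) (hm (g - f' y))
    refine ⟨f x + f' y - g, hx, ?_⟩
    dsimp only
    abel

theorem HM_union {A B : Set G} (hA : HM A) (hB : HM B) : HM (A ∪ B) := by
  obtain ⟨B1, hA1, hB1, K1, m1, c1, n1, f1, hf1, h1⟩ := hA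
  obtain ⟨B2, hA2, hB2, K2, m2, c2, n2, f2, hf2, h2⟩ := hB
  refine ⟨B1 ∪ B2, union_subset_union hA1 hA2, hB1.union hB2, K1 × K2, inferInstance,
    inferInstance, inferInstance, fun p => f1 p.1 + f2 p.2, by fun_prop, fun g => ?_⟩
  have e1 := KU_sum hB1 hf1 hf2 h1 g
  have e2 := (KU_sum hB2 hf2 hf1 h2 g).preimage_of_isOpenMap (f := Prod.swap) continuous_swap
    (Homeomorph.prodComm K1 K2).isOpenMap
  refine (e1.union e2).mono ?_
  rintro p ⟨b, hb, hbp⟩
  have hb1 : f1 p.1 + f2 p.2 - g = b := by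
    have : b + g = f1 p.1 + f2 p.2 := hbp
    rw [← this]; abel
  rcases hb with hb | hb
  · left
    change f1 p.1 + f2 p.2 - g ∈ B1
    rwa [hb1]
  · right
    change f2 p.2 + f1 p.1 - g ∈ B2
    rwa [add_comm (f2 p.2), hb1]

end Pool.Agent.Lib.MP_056111_lc.CL
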