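import Pool.Agent.Lib.MP_056111_lc.CL.Defs

/-!
The local part: each piece is meager in its witness, the two pieces fill the compact set.
-/

open Set Topology Filter Pointwise

namespace Pool.Agent.Lib.MP_056111_lc.CL

variable {G : Type} [NormedAddCommGroup G]

/-- The relative boundary of `F` inside `D`. -/
def locBd (D F : Set G) : Set D := {x | x.1 ∈ F ∧ ¬ ∃ r > 0, ∀ v ∈ D, ‖v - x.1‖ < r → v ∈ F}

lemma locBd_meagre (D : Set G) {F : Set G} (hF : IsClosed F) : IsMeagre (locBd D F) := by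
  have hc : IsClosed ((↑) ⁻¹' F : Set D) := hF.preimage continuous_subtype_val
  have h1 : IsNowhereDense (frontier ((↑) ⁻¹' F : Set D)) := by
    rw [isClosed_frontier.isNowhereDense_iff]
    exact interior_frontier hc
  refine (h1.mono ?_).isMeagre
  rintro x ⟨hx, hx'⟩
  rw [hc.frontier_eq]
  refine ⟨hx, fun hi => hx' ?_⟩
  rw [mem_interior_iff_mem_nhds, nhds_subtype_eq_comap, mem_comap] at hi
  obtain ⟨t, ht, hts⟩ := hi
  obtain ⟨r, hr, hm⟩ := Metric.mem_nhds_iff.1 ht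
  exact ⟨r, hr, fun v hv hag => hts (a := ⟨v, hv⟩) (hm (by rwa [mem_ball_iff_norm]))⟩

lemma loc_of_not_bd {D F : Set G} {x : D} (h : x ∉ locBd D F) (hx : x.1 ∈ F) :
    ∃ r > 0, ∀ v ∈ D, ‖v - x.1‖ < r → v ∈ F := by
  by_contra hh
  exact h ⟨hx, hh⟩

lemma loc_dense_meagre {D O : Set G} (hO : IsOpen O) (hD : D ⊆ closure (O ∩ D)) :
    IsMeagre {x : D | x.1 ∉ O} := by
  refine (locBd_meagre D hO.isClosed_compl).mono ?_
  rintro ⟨x, hx⟩ hxO
  refine ⟨hxO, ?_⟩
  rintro ⟨r, hr, h⟩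
  obtain ⟨v, hv, hd⟩ := Metric.mem_closure_iff.1 (hD hx) r hr
  exact h v hv.2 (by rwa [dist_comm, dist_eq_norm] at hd) hv.1

lemma loc_small {a : ℕ → G} (ha : Tendsto a atTop (𝓝 0)) {r : ℝ} (hr : 0 < r) :
    ∃ N, ∀ j, N ≤ j → ‖a j‖ < r := by
  obtain ⟨N, hN⟩ := Metric.tendsto_atTop.1 ha r hr
  exact ⟨N, fun j hj => by simpa using hN j hj⟩

lemma loc_P_open {C : Set G} {s x : G} (h : P C s x) :
    ∃ r > 0, ∀ z, ‖z - x‖ < r → P C s z := by
  obtain ⟨δ, hδ, h⟩ := h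
  refine ⟨δ / 2, by positivity, fun z hz => ⟨δ / 2, by positivity, fun y hy hyz => h y hy ?_⟩⟩
  have e : y - (x + s) = (y - (z + s)) + (z - x) := by abel
  rw [e]
  linarith [norm_add_le (y - (z + s)) (z - x)]

lemma loc_closed_notP {C : Set G} (hC : IsClosed C) (s g : G) :
    IsClosed {x | x - g ∈ C ∧ ¬ P C s (x - g)} := by
  have h1 : IsOpen {x | P C s x} := by
    rw [Metric.isOpen_iff]
    intro x hx
    obtain ⟨r, hr, h⟩ := loc_P_open hx
    exact ⟨r, hr, fun z hz => h z (by rwa [mem_ball_iff_norm] at hz)⟩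
  exact (hC.inter h1.isClosed_compl).preimage (continuous_sub_right g)

theorem H1_meagre {E D C : Set G} {a : ℕ → G} (ha : Tendsto a atTop (𝓝 0)) (hD : W1 E a D)
    (hC : IsClosed C) (g : G) : IsMeagre {x : D | x.1 - g ∈ H1 E a C} := by
  choose O hO hOD hO2 using hD
  have hcl : IsClosed {x : G | x - g ∈ C} := hC.preimage (continuous_sub_right g)
  refine ((locBd_meagre D hcl).union
    (isMeagre_iUnion fun N => loc_dense_meagre (hO N) (hOD N))).mono ?_
  rintro ⟨x, hxD⟩ ⟨hxC, ⟨N, hN⟩, hesc⟩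
  by_contra hcon
  obtain ⟨r, hr, hin⟩ := loc_of_not_bd (D := D) (F := {x : G | x - g ∈ C}) (x := ⟨x, hxD⟩)
    (fun h => hcon (Or.inl h)) hxC
  obtain ⟨N', hN'⟩ := loc_small ha (half_pos hr)
  have hxO : x ∈ O (max N N') := by
    by_contra hh
    exact hcon (Or.inr (mem_iUnion.2 ⟨max N N', hh⟩))
  obtain ⟨j, hj, δ, hδ, hz⟩ := hO2 _ x ⟨hxO, hxD⟩
  have haj := hN' j (le_of_max_le_right hj)
  have key : ∀ s, (s = a j ∨ s = -a j) → ¬ P C s (x - g) := by
    rintro s hs ⟨γ, hγ, hP⟩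
    obtain ⟨e, he, hen, hout⟩ := hesc (min (min δ γ) (r / 2)) (by positivity)
    have h1 : ‖e‖ < δ := lt_of_lt_of_le hen ((min_le_left _ _).trans (min_le_left _ _))
    have h2 : ‖e‖ < γ := lt_of_lt_of_le hen ((min_le_left _ _).trans (min_le_right _ _))
    have h3 : ‖e‖ < r / 2 := lt_of_lt_of_le hen (min_le_right _ _)
    have hsn : ‖s‖ < r / 2 := by rcases hs with rfl | rfl <;> simpa using haj
    have hyD : x + s + e ∈ D := by
      rcases hs with rfl | rfl
      · exact (hz e he h1).1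
      · simpa [sub_eq_add_neg] using (hz e he h1).2
    have hyC : x + s + e - g ∈ C := by
      refine hin _ hyD ?_
      have e1 : x + s + e - x = s + e := by abel
      simp only
      rw [e1]
      linarith [norm_add_le s e]
    have := hP _ hyC (by
      have e1 : x + s + e - g - (x - g + s) = e := by abel
      rwa [e1])
    apply hout
    have e1 : x - g + e = x + s + e - g - s := by abel
    simp only
    rwa [e1]
  rcases hN j (le_of_max_le_left hj) with h | h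
  · exact key _ (Or.inl rfl) h
  · exact key _ (Or.inr rfl) h

theorem H2_meagre {D C : Set G} {a : ℕ → G} (ha : Tendsto a atTop (𝓝 0)) (hD : W2 a D)
    (hC : IsClosed C) (g : G) : IsMeagre {x : D | x.1 - g ∈ H2 a C} := by
  refine ((locBd_meagre D (F := closure ({x | x - g ∈ H2 a C} ∩ D)) isClosed_closure).union
    ((isMeagre_iUnion fun j => locBd_meagre D (loc_closed_notP hC (a j) g)).union
      (isMeagre_iUnion fun j => locBd_meagre D (loc_closed_notP hC (-a j) g)))).mono ?_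
  rintro ⟨x, hxD⟩ hxH
  have hxH' : x - g ∈ H2 a C := hxH
  obtain ⟨hxC, hng, -⟩ := hxH'
  by_contra hcon
  obtain ⟨r, hr, hin⟩ := loc_of_not_bd (D := D) (F := closure ({x | x - g ∈ H2 a C} ∩ D))
    (x := ⟨x, hxD⟩) (fun h => hcon (Or.inl h)) (subset_closure ⟨hxH, hxD⟩)
  obtain ⟨N, hN⟩ := loc_small ha hr
  have : ∃ j, N ≤ j ∧ ¬ P C (a j) (x - g) ∧ ¬ P C (-a j) (x - g) := by
    by_contra hh
    apply hng
    refine ⟨N, fun j hj => ?_⟩
    by_contra h2
    exact hh ⟨j, hj, fun h => h2 (Or.inl h), fun h => h2 (Or.inr h)⟩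
  obtain ⟨j, hj, hp1, hp2⟩ := this
  obtain ⟨s, hs, hsD, δ, hδ, hw⟩ := hD x hxD j
  have h2 : ∃ r > 0, ∀ v ∈ D, ‖v - x‖ < r → v - g ∈ C ∧ ¬ P C s (v - g) := by
    rcases hs with rfl | rfl
    · exact loc_of_not_bd (D := D) (F := {x | x - g ∈ C ∧ ¬ P C (a j) (x - g)}) (x := ⟨x, hxD⟩)
        (fun h => hcon (Or.inr (Or.inl (mem_iUnion.2 ⟨j, h⟩)))) ⟨hxC, hp1⟩
    · exact loc_of_not_bd (D := D) (F := {x | x - g ∈ C ∧ ¬ P C (-a j) (x - g)}) (x := ⟨x, hxD⟩)
        (fun h => hcon (Or.inr (Or.inr (mem_iUnion.2 ⟨j, h⟩)))) ⟨hxC, hp2⟩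
  obtain ⟨r2, hr2, hin2⟩ := h2
  have hsn : ‖s‖ < r := by rcases hs with rfl | rfl <;> simpa using hN j hj
  have hcl := hin (x + s) hsD (by simpa using hsn)
  obtain ⟨w, ⟨hwH, hwD⟩, hd⟩ := Metric.mem_closure_iff.1 hcl (min δ r2) (by positivity)
  rw [dist_comm, dist_eq_norm] at hd
  have hws := hw w hwD (lt_of_lt_of_le hd (min_le_left _ _))
  obtain ⟨h3, h4⟩ := hin2 _ hws (by
    have e1 : w - s - x = w - (x + s) := by abel
    rw [e1]
    exact lt_of_lt_of_le hd (min_le_right _ _))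
  have e1 : w - s - g = w - g - s := by abel
  rw [e1] at h3 h4
  exact h4 (hwH.2.2 j s hs h3)

theorem H_not_meagre {E C : Set G} (a : ℕ → G) (hE : Esc E) (hC : IsCompact C)
    (hne : C.Nonempty) : ¬ IsMeagre {x : C | x.1 ∈ H1 E a C ∪ H2 a C} := by
  intro hm
  have hcl := hC.isClosed
  have hF : ∀ m : ℕ, IsClosed {y : G | ∀ e ∈ E, ‖e‖ < 1 / ((m : ℝ) + 1) → y + e ∈ C} := by
    intro m
    simp only [ofPred_forall]
    exact isClosed_iInter fun e => isClosed_iInter fun _ => isClosed_iInter fun _ =>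
      hcl.preimage (continuous_add_const e)
  have hS : ∀ s : G, IsClosed {y : G | y - s ∈ C} := fun s =>
    hcl.preimage (continuous_sub_right s)
  have h1 : IsMeagre {x : C | x.1 ∈ H1 E a C ∪ H2 a C}ᶜ := by
    refine ((isMeagre_iUnion fun m => locBd_meagre C (hF m)).union
      ((isMeagre_iUnion fun j => locBd_meagre C (hS (a j))).union
        (isMeagre_iUnion fun j => locBd_meagre C (hS (-a j))))).mono ?_
    rintro ⟨x, hxC⟩ hx
    by_contra hcon
    apply hx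
    have h2 : ∀ r > 0, ∃ e ∈ E, ‖e‖ < r ∧ x + e ∉ C := by
      intro r hr
      by_contra hh
      push Not at hh
      obtain ⟨m, hm⟩ := exists_nat_one_div_lt hr
      obtain ⟨ρ, hρ, hin⟩ := loc_of_not_bd (D := C)
        (F := {y : G | ∀ e ∈ E, ‖e‖ < 1 / ((m : ℝ) + 1) → y + e ∈ C}) (x := ⟨x, hxC⟩)
        (fun h => hcon (Or.inl (mem_iUnion.2 ⟨m, h⟩))) fun e he hen => hh e he (hen.trans hm)
      obtain ⟨y, hyC, hy, e, he, hen, hout⟩ :=
        hE C hC x hxC (min ρ (1 / ((m : ℝ) + 1))) (by positivity)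
      exact hout (hin y hyC (lt_of_lt_of_le hy (min_le_left _ _)) e he
        (lt_of_lt_of_le hen (min_le_right _ _)))
    have h3 : ∀ j s, (s = a j ∨ s = -a j) → x - s ∈ C → P C s (x - s) := by
      intro j s hs hx
      have : ∃ r > 0, ∀ v ∈ C, ‖v - x‖ < r → v - s ∈ C := by
        rcases hs with rfl | rfl
        · exact loc_of_not_bd (D := C) (F := {y : G | y - a j ∈ C}) (x := ⟨x, hxC⟩)
            (fun h => hcon (Or.inr (Or.inl (mem_iUnion.2 ⟨j, h⟩)))) hx
        · exact loc_of_not_bd (D := C) (F := {y : G | y - -a j ∈ C}) (x := ⟨x, hxC⟩)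
            (fun h => hcon (Or.inr (Or.inr (mem_iUnion.2 ⟨j, h⟩)))) hx
      obtain ⟨r, hr, h⟩ := this
      exact ⟨r, hr, fun y hy hd => h y hy (by simpa using hd)⟩
    by_cases hg : Good a C x
    · exact Or.inl ⟨hxC, hg, h2⟩
    · exact Or.inr ⟨hxC, hg, h3⟩
  have h2 := hm.union h1
  rw [union_compl_self] at h2
  have : CompactSpace C := isCompact_iff_compactSpace.1 hC
  have : Nonempty C := hne.to_subtype
  have h3 : Dense (univᶜ : Set C) := dense_of_mem_residual h2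
  simpa using h3.nonempty

end Pool.Agent.Lib.MP_056111_lc.CL
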