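import Pool.Agent.Lib.MP_056111_lc.CL.Defs

/-!
The two pieces depend on the compact set in a Borel way.
-/

open Set Topology Filter Pointwise

namespace Pool.Agent.Lib.MP_056111_lc.CL

open TopologicalSpace

variable {G : Type} [NormedAddCommGroup G]

theorem Meas_cont0 : Continuous fun p : G × NonemptyCompacts G =>
    Metric.infDist p.1 (p.2 : Set G) :=
  (Metric.lipschitz_infDist (α := G)).continuous

theorem Meas_cont : Continuous fun p : NonemptyCompacts G × G =>
    Metric.infDist p.2 (p.1 : Set G) := by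
  have h : Continuous (fun p : NonemptyCompacts G × G => ((p.2, p.1) : G × NonemptyCompacts G)) :=
    continuous_snd.prodMk continuous_fst
  have h2 := Meas_cont0.comp h
  simpa only [Function.comp_def] using h2

theorem Meas_closed_mem : IsClosed {p : NonemptyCompacts G × G | p.2 ∈ (p.1 : Set G)} := by
  have : {p : NonemptyCompacts G × G | p.2 ∈ (p.1 : Set G)} =
      {p | Metric.infDist p.2 (p.1 : Set G) = 0} := by
    ext p
    exact p.1.isCompact.isClosed.mem_iff_infDist_zero p.1.nonempty
  rw [this]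
  exact isClosed_eq Meas_cont continuous_const

theorem Meas_closed_add (e : G) :
    IsClosed {p : NonemptyCompacts G × G | p.2 + e ∈ (p.1 : Set G)} :=
  Meas_closed_mem.preimage (f := fun p : NonemptyCompacts G × G => (p.1, p.2 + e)) (by fun_prop)

theorem Meas_closed_loc (c s : G) (δ : ℝ) : IsClosed {p : NonemptyCompacts G × G |
    ∀ y ∈ (p.1 : Set G), ‖y - (p.2 + c)‖ < δ → y - s ∈ (p.1 : Set G)} := by
  refine IsSeqClosed.isClosed ?_
  intro u p hu hp y hy hδ
  have hz0 : ∀ n, ∃ z ∈ ((u n).1 : Set G), Metric.infDist y ((u n).1 : Set G) = dist y z :=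
    fun n => (u n).1.isCompact.exists_infDist_eq_dist (u n).1.nonempty y
  choose z hz hd using hz0
  have h1 : Tendsto (fun n => (u n).1) atTop (𝓝 p.1) := (continuous_fst.tendsto p).comp hp
  have h2 : Tendsto (fun n => (u n).2) atTop (𝓝 p.2) := (continuous_snd.tendsto p).comp hp
  have h3 : Tendsto (fun n => Metric.infDist y ((u n).1 : Set G)) atTop
      (𝓝 (Metric.infDist y (p.1 : Set G))) := by
    have h7 : Tendsto (fun n => ((u n).1, y)) atTop (𝓝 (p.1, y)) :=
      h1.prodMk_nhds tendsto_const_nhds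
    have h8 := (Meas_cont.tendsto (p.1, y)).comp h7
    simpa only [Function.comp_def] using h8
  rw [Metric.infDist_zero_of_mem hy] at h3
  have h4 : Tendsto z atTop (𝓝 y) := by
    rw [tendsto_iff_dist_tendsto_zero]
    refine h3.congr fun n => ?_
    rw [hd, dist_comm]
  have h5 : Tendsto (fun n => ‖z n - ((u n).2 + c)‖) atTop (𝓝 ‖y - (p.2 + c)‖) :=
    (h4.sub (h2.add_const c)).norm
  have h6 : Tendsto (fun n => ((u n).1, z n - s)) atTop (𝓝 (p.1, y - s)) :=
    h1.prodMk_nhds (h4.sub_const s)
  have h9 : ∀ᶠ n in atTop, ((u n).1, z n - s) ∈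
      {p : NonemptyCompacts G × G | p.2 ∈ (p.1 : Set G)} := by
    filter_upwards [h5.eventually (gt_mem_nhds hδ)] with n hn
    exact hu n (z n) (hz n) hn
  have h10 := Meas_closed_mem.mem_of_tendsto h6 h9
  exact h10

theorem Meas_P [MeasurableSpace (NonemptyCompacts G × G)] [BorelSpace (NonemptyCompacts G × G)]
    (c s : G) : Measurable fun p : NonemptyCompacts G × G => P (p.1 : Set G) s (p.2 + c) := by
  have : (fun p : NonemptyCompacts G × G => P (p.1 : Set G) s (p.2 + c)) = fun p =>
      ∃ m : ℕ, ∀ y ∈ (p.1 : Set G), ‖y - (p.2 + (c + s))‖ < 1 / ((m : ℝ) + 1) →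
        y - s ∈ (p.1 : Set G) := by
    funext p
    apply propext
    constructor
    · rintro ⟨δ, hδ, h⟩
      obtain ⟨m, hm⟩ := exists_nat_one_div_lt hδ
      exact ⟨m, fun y hy h' => h y hy (by rw [add_assoc]; exact h'.trans hm)⟩
    · rintro ⟨m, h⟩
      exact ⟨1 / ((m : ℝ) + 1), by positivity, fun y hy h' => h y hy (by rwa [← add_assoc])⟩
  rw [this]
  exact Measurable.exists fun m =>
    measurableSet_setOfPred.1 (Meas_closed_loc (c + s) s _).measurableSet

theorem Meas_good [MeasurableSpace (NonemptyCompacts G × G)]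
    [BorelSpace (NonemptyCompacts G × G)] (a : ℕ → G) :
    Measurable fun p : NonemptyCompacts G × G => Good a (p.1 : Set G) p.2 := by
  have h : ∀ s : G, Measurable fun p : NonemptyCompacts G × G => P (p.1 : Set G) s p.2 := by
    intro s
    simpa only [add_zero] using Meas_P (0 : G) s
  exact Measurable.exists fun N => Measurable.forall fun j =>
    measurable_const.imp ((h _).or (h _))

theorem meas_H1 {E : Set G} (hE : E.Countable) (a : ℕ → G) :
    @MeasurableSet (NonemptyCompacts G × G) (borel (NonemptyCompacts G × G))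
      {p | p.2 ∈ H1 E a (p.1 : Set G)} := by
  let _ : MeasurableSpace (NonemptyCompacts G × G) := borel _
  have : BorelSpace (NonemptyCompacts G × G) := ⟨rfl⟩
  have : Countable E := hE.to_subtype
  have e : (fun p : NonemptyCompacts G × G =>
      ∀ r > 0, ∃ e ∈ E, ‖e‖ < r ∧ p.2 + e ∉ (p.1 : Set G)) = fun p =>
      ∀ m : ℕ, ∃ e : E, ‖(e : G)‖ < 1 / ((m : ℝ) + 1) ∧ ¬ (p.2 + (e : G) ∈ (p.1 : Set G)) := by
    funext p
    apply propext
    constructor
    · intro h m
      obtain ⟨e, he, h1, h2⟩ := h (1 / ((m : ℝ) + 1)) (by positivity)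
      exact ⟨⟨e, he⟩, h1, h2⟩
    · intro h r hr
      obtain ⟨m, hm⟩ := exists_nat_one_div_lt hr
      obtain ⟨e, h1, h2⟩ := h m
      exact ⟨e, e.2, h1.trans hm, h2⟩
  have h3 : Measurable fun p : NonemptyCompacts G × G =>
      ∀ r > 0, ∃ e ∈ E, ‖e‖ < r ∧ p.2 + e ∉ (p.1 : Set G) := by
    rw [e]
    exact Measurable.forall fun m => Measurable.exists fun e => measurable_const.and
      (measurableSet_setOfPred.1 (Meas_closed_add (e : G)).measurableSet).not
  exact measurableSet_setOfPred.2
    ((measurableSet_setOfPred.1 Meas_closed_mem.measurableSet).and ((Meas_good a).and h3))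

theorem meas_H2 (a : ℕ → G) :
    @MeasurableSet (NonemptyCompacts G × G) (borel (NonemptyCompacts G × G))
      {p | p.2 ∈ H2 a (p.1 : Set G)} := by
  let _ : MeasurableSpace (NonemptyCompacts G × G) := borel _
  have : BorelSpace (NonemptyCompacts G × G) := ⟨rfl⟩
  have h : ∀ s : G, Measurable fun p : NonemptyCompacts G × G =>
      p.2 - s ∈ (p.1 : Set G) → P (p.1 : Set G) s (p.2 - s) := by
    intro s
    simp only [sub_eq_add_neg]
    exact (measurableSet_setOfPred.1 (Meas_closed_add (-s)).measurableSet).imp (Meas_P (-s) s)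
  have h3 : Measurable fun p : NonemptyCompacts G × G => ∀ j s, (s = a j ∨ s = -a j) →
      p.2 - s ∈ (p.1 : Set G) → P (p.1 : Set G) s (p.2 - s) := by
    simp only [forall_eq_or_imp, forall_eq]
    exact Measurable.forall fun j => (h _).and (h _)
  exact measurableSet_setOfPred.2
    ((measurableSet_setOfPred.1 Meas_closed_mem.measurableSet).and ((Meas_good a).not.and h3))

end Pool.Agent.Lib.MP_056111_lc.CL
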