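import Pool.Agent.Lib.MP_056111_lc.CL.Seq
import Pool.Agent.Lib.MP_056111_lc.CL.DA
import Pool.Agent.Lib.MP_056111_lc.CL.DB
import Pool.Agent.Lib.MP_056111_lc.CL.Loc
import Pool.Agent.Lib.MP_056111_lc.CL.Meas
import Pool.Agent.Lib.MP_056111_lc.CL.Glue

/-!
If the local condition fails, two strongly Haar meager sets have a union that is not.
-/

open Set Topology Filter Pointwise

namespace Pool.Agent.Lib.MP_056111_lc.CL

open TopologicalSpace

variable {G : Type} [NormedAddCommGroup G] [CompleteSpace G] [SecondCountableTopology G]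

/-- The union of the translated pieces. -/
def negGlue (Z : Set (NonemptyCompacts G × (ℕ → ℕ))) (t : (ℕ → ℕ) → G) (H : Set G → Set G) :
    Set G :=
  (fun y : (NonemptyCompacts G × (ℕ → ℕ)) × G => y.2 + t y.1.2) ''
    {y | y.1 ∈ Z ∧ y.2 ∈ H (y.1.1 : Set G)}

theorem neg_shm {Z : Set (NonemptyCompacts G × (ℕ → ℕ))} {t : (ℕ → ℕ) → G} (hZ : IsClosed Z)
    (ht : Continuous t) {D : Set G} (hD : IsCompact D) (hne : D.Nonempty)
    (hsep : ∀ p ∈ Z, ∀ q ∈ Z, ∀ x ∈ (p.1 : Set G), ∀ y ∈ (q.1 : Set G), ∀ d ∈ D, ∀ d' ∈ D,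
      x + t p.2 - (y + t q.2) = d - d' → p = q)
    {H : Set G → Set G} (hH : ∀ C, H C ⊆ C)
    (hmeas : @MeasurableSet (NonemptyCompacts G × G) (borel (NonemptyCompacts G × G))
      {p | p.2 ∈ H (p.1 : Set G)})
    (hm : ∀ C, IsClosed C → ∀ g, IsMeagre {x : D | x.1 - g ∈ H C}) : SHM (negGlue Z t H) := by
  refine ⟨_, subset_rfl, ?_, D, hne, hD, fun g => ?_⟩
  · let _ : MeasurableSpace G := borel G
    have : BorelSpace G := ⟨rfl⟩
    let _ : MeasurableSpace (NonemptyCompacts G × G) := borel _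
    have : BorelSpace (NonemptyCompacts G × G) := ⟨rfl⟩
    let _ : MeasurableSpace ((NonemptyCompacts G × (ℕ → ℕ)) × G) := borel _
    have : BorelSpace ((NonemptyCompacts G × (ℕ → ℕ)) × G) := ⟨rfl⟩
    refine MeasurableSet.image_of_continuousOn_injOn ?_ ?_ ?_
    · have h1 : MeasurableSet {y : (NonemptyCompacts G × (ℕ → ℕ)) × G | y.1 ∈ Z} :=
        (hZ.preimage continuous_fst).measurableSet
      have hc : Continuous fun y : (NonemptyCompacts G × (ℕ → ℕ)) × G => (y.1.1, y.2) := by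
        fun_prop
      exact h1.inter (hc.measurable hmeas)
    · exact (continuous_snd.add (ht.comp (continuous_snd.comp continuous_fst))).continuousOn
    · rintro ⟨p, x⟩ ⟨hp, hx⟩ ⟨q, y⟩ ⟨hq, hy⟩ h
      obtain ⟨d, hd⟩ := hne
      simp only at h
      have hpq : p = q := hsep p hp q hq x (hH _ hx) y (hH _ hy) d hd d hd (by rw [h]; simp)
      subst hpq
      rw [add_right_cancel h]
  · rcases Set.eq_empty_or_nonempty {x : D | x.1 ∈ (fun b => b + g) '' negGlue Z t H} with h | h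
    · rw [h]
      exact IsMeagre.empty
    obtain ⟨d0, _, ⟨⟨q, y⟩, ⟨hq, hy⟩, rfl⟩, hd0⟩ := h
    refine (hm (q.1 : Set G) q.1.isCompact.isClosed (t q.2 + g)).mono ?_
    rintro d ⟨_, ⟨⟨p, x⟩, ⟨hp, hx⟩, rfl⟩, hd⟩
    simp only at hd hd0 hx hy hp hq
    have hpq : p = q := hsep p hp q hq x (hH _ hx) y (hH _ hy) d.1 d.2 d0.1 d0.2 (by
      rw [← hd, ← hd0]
      abel)
    subst hpq
    have e : d.1 - (t p.2 + g) = x := by
      rw [← hd]
      abel
    simp only [mem_ofPred_eq]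
    rwa [e]

theorem exists_pair (h : ¬ LH G) : ∃ A B : Set G, SHM A ∧ SHM B ∧ ¬ SHM (A ∪ B) := by
  have hfar := far_of_not_LH h
  obtain ⟨E, hEc, hE, h0, hesc⟩ := exists_esc h
  have hG : ∀ r > 0, ∃ a : G, a ≠ 0 ∧ ‖a‖ < r := by
    intro r hr
    obtain ⟨η, hη, hK⟩ := hfar r hr
    obtain ⟨τ, hτ, h1⟩ := hK {0} isCompact_singleton
    refine ⟨τ, fun h2 => ?_, hτ⟩
    have := h1 0 rfl
    rw [h2] at this
    simp at this
    linarith
  obtain ⟨a, D1, ha0, ha, hD1, hne1, hW1⟩ := exists_W1 hG hEc hE h0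
  obtain ⟨D2, hD2, hne2, hW2⟩ := exists_W2 ha0 ha
  have hlim : Tendsto a atTop (𝓝 0) := by
    have hb : ∀ j, ‖a j‖ ≤ ‖a 0‖ * (1 / 16) ^ j := by
      intro j
      induction j with
      | zero => simp
      | succ j ih =>
        rw [pow_succ]
        linarith [ha j]
    have h1 : Tendsto (fun j : ℕ => ‖a 0‖ * (1 / 16 : ℝ) ^ j) atTop (𝓝 (‖a 0‖ * 0)) :=
      (tendsto_pow_atTop_nhds_zero_of_lt_one (by norm_num) (by norm_num)).const_mul _
    rw [mul_zero] at h1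
    exact squeeze_zero_norm hb h1
  obtain ⟨Z, t, hZ, ht, hall, hsep⟩ := exists_apart hfar (hD1.union hD2)
  refine ⟨negGlue Z t (H1 E a), negGlue Z t (H2 a), ?_, ?_, ?_⟩
  · exact neg_shm hZ ht hD1 hne1
      (fun p hp q hq x hx y hy d hd d' hd' => hsep p hp q hq x hx y hy d (Or.inl hd) d' (Or.inl hd'))
      (fun _ _ hx => hx.1) (meas_H1 hEc a) fun C hC g => H1_meagre hlim hW1 hC g
  · exact neg_shm hZ ht hD2 hne2
      (fun p hp q hq x hx y hy d hd d' hd' => hsep p hp q hq x hx y hy d (Or.inr hd) d' (Or.inr hd'))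
      (fun _ _ hx => hx.1) (meas_H2 a) fun C hC g => H2_meagre hlim hW2 hC g
  · rintro ⟨B, hB, -, C, hne, hC, hm⟩
    obtain ⟨κ, hκ⟩ := hall ⟨⟨C, hC⟩, hne⟩
    refine H_not_meagre a hesc hC hne ((hm (-t κ)).mono ?_)
    rintro x hx
    refine ⟨x.1 + t κ, hB ?_, by simp⟩
    rcases hx with hx | hx
    · exact Or.inl ⟨((⟨⟨C, hC⟩, hne⟩, κ), x.1), ⟨hκ, hx⟩, rfl⟩
    · exact Or.inr ⟨((⟨⟨C, hC⟩, hne⟩, κ), x.1), ⟨hκ, hx⟩, rfl⟩

end Pool.Agent.Lib.MP_056111_lc.CL
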