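import Pool.Agent.Lib.MP_056111_lc.CL.Wtn

/-!
Under the local condition, countably many Haar meager sets have a common strong witness.
-/

open Set Topology Filter Pointwise

namespace Pool.Agent.Lib.MP_056111_lc.CL

variable {G : Type} [NormedAddCommGroup G] [CompleteSpace G] [SecondCountableTopology G]

omit [CompleteSpace G] [SecondCountableTopology G] in
theorem Pos_compact (S : ℕ → Set G) (hS : ∀ n, IsCompact (S n)) :
    IsCompact (insert (0 : G) (⋃ n : ℕ, Metric.closedBall 0 (1 / ((n : ℝ) + 1)) ∩ S n)) := by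
  refine isCompact_of_finite_subcover fun {ι} U hU hcov ↦ ?_
  classical
  obtain ⟨i₀, hi₀⟩ := mem_iUnion.1 (hcov (mem_insert _ _))
  obtain ⟨ε, hε, hεU⟩ := Metric.isOpen_iff.1 (hU i₀) 0 hi₀
  obtain ⟨N, hN⟩ := exists_nat_one_div_lt hε
  have hK : IsCompact (⋃ n ∈ Finset.range N, Metric.closedBall (0 : G) (1 / ((n : ℝ) + 1)) ∩ S n) :=
    (Finset.range N).isCompact_biUnion fun n _ ↦ (hS n).inter_left Metric.isClosed_closedBall
  obtain ⟨t, ht⟩ := hK.elim_finite_subcover U hU (fun x hx ↦ by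
    obtain ⟨n, -, hn⟩ := mem_iUnion₂.1 hx
    exact hcov (mem_insert_of_mem _ (mem_iUnion.2 ⟨n, hn⟩)))
  refine ⟨insert i₀ t, fun x hx ↦ ?_⟩
  rcases hx with rfl | hx
  · exact mem_iUnion₂.2 ⟨i₀, Finset.mem_insert_self _ _, hi₀⟩
  obtain ⟨n, hn⟩ := mem_iUnion.1 hx
  by_cases h : n < N
  · obtain ⟨i, hi, hxi⟩ := mem_iUnion₂.1 (ht (mem_iUnion₂.2 ⟨n, Finset.mem_range.2 h, hn⟩))
    exact mem_iUnion₂.2 ⟨i, Finset.mem_insert_of_mem hi, hxi⟩
  · refine mem_iUnion₂.2 ⟨i₀, Finset.mem_insert_self _ _, hεU ?_⟩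
    refine Metric.closedBall_subset_ball (lt_of_le_of_lt ?_ hN) hn.1
    exact Nat.one_div_le_one_div (not_lt.1 h)

theorem shm_iUnion (hN : LH G) (A : ℕ → Set G) (hA : ∀ n, HM (A n)) : SHM (⋃ n, A n) := by
  choose B hAB hB K mK cK nK f hf hm using hA
  let k : ∀ n, K n := fun n ↦ (nK n).some
  let S : ℕ → Set G := fun n ↦
    range (fun x ↦ f n x - f n (k n)) ∪ range (fun x ↦ -(f n x - f n (k n)))
  have hS : ∀ n, IsCompact (S n) := fun n ↦
    (isCompact_range ((hf n).sub continuous_const)).union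
      (isCompact_range ((hf n).sub continuous_const).neg)
  obtain ⟨U, hU, C, hC, h0, hinv⟩ := hN _ (Pos_compact S hS)
  obtain ⟨ρ, hρ, hρU⟩ := Metric.mem_nhds_iff.1 hU
  refine ⟨⋃ n, B n, iUnion_mono hAB, MeasurableSet.iUnion hB, closure (C ∩ Metric.ball 0 ρ),
    ⟨0, subset_closure ⟨h0, Metric.mem_ball_self hρ⟩⟩,
    hC.of_isClosed_subset isClosed_closure (closure_minimal inter_subset_left hC.isClosed),
    fun g ↦ ?_⟩
  have key : ∀ n, IsMeagre
      {x : closure (C ∩ Metric.ball 0 ρ) | (x : G) ∈ (fun b => b + g) '' B n} := fun n ↦ by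
    refine witness (hf n) (k n) (hB n) (hm n) hC (η := min ρ (1 / ((n : ℝ) + 1)))
      (lt_min hρ Nat.one_div_pos_of_nat) (fun x hx hxρ y hy ↦ ?_) g
    have hxU : x ∈ U := hρU (mem_ball_zero_iff.2 hxρ)
    have h1 : ‖f n y - f n (k n)‖ < ρ := hy.trans_le (min_le_left _ _)
    have h2 : ‖f n y - f n (k n)‖ ≤ 1 / ((n : ℝ) + 1) := (hy.trans_le (min_le_right _ _)).le
    constructor
    · exact hinv x ⟨hx, hxU⟩ _ ⟨mem_insert_of_mem _ (mem_iUnion.2 ⟨n,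
        mem_closedBall_zero_iff.2 h2, Or.inl ⟨y, rfl⟩⟩), hρU (mem_ball_zero_iff.2 h1)⟩
    · rw [sub_eq_add_neg]
      exact hinv x ⟨hx, hxU⟩ _ ⟨mem_insert_of_mem _ (mem_iUnion.2 ⟨n,
        mem_closedBall_zero_iff.2 (by rwa [norm_neg]), Or.inr ⟨y, rfl⟩⟩),
        hρU (mem_ball_zero_iff.2 (by rwa [norm_neg]))⟩
  refine (isMeagre_iUnion key).mono fun x hx ↦ ?_
  obtain ⟨b, hb, hbx⟩ := hx
  obtain ⟨n, hn⟩ := mem_iUnion.1 hb
  exact mem_iUnion.2 ⟨n, b, hn, hbx⟩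

end Pool.Agent.Lib.MP_056111_lc.CL
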