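import Pool.Agent.Lib.MP_056111_lc.CL.Norm
import Pool.Agent.Lib.MP_056111_lc.CL.KU
import Pool.Agent.Lib.MP_056111_lc.CL.Pos
import Pool.Agent.Lib.MP_056111_lc.CL.Neg

/-!
The classification.
-/

open Set Topology Filter Pointwise

namespace Pool.Agent.Lib.MP_056111_lc.CL

theorem main_normed (G : Type) [NormedAddCommGroup G] [CompleteSpace G]
    [SecondCountableTopology G] :
    List.TFAE [∀ A : ℕ → Set G, (∀ n, SHM (A n)) → SHM (⋃ n, A n),
      ∀ A B : Set G, SHM A → SHM B → SHM (A ∪ B),
      ∀ A : Set G, HM A → SHM A,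
      LH G] := by
  tfae_have 1 → 2 := by
    intro h A B hA hB
    have := h (fun n => if n = 0 then A else B) fun n => by
      by_cases hn : n = 0 <;> simp [hn, hA, hB]
    have e : (⋃ n : ℕ, if n = 0 then A else B) = A ∪ B := by
      ext x
      simp only [mem_iUnion, mem_union]
      constructor
      · rintro ⟨n, hn⟩
        by_cases h0 : n = 0
        · left
          simpa [h0] using hn
        · right
          simpa [h0] using hn
      · rintro (hx | hx)
        · exact ⟨0, by simpa using hx⟩
        · exact ⟨1, by simpa using hx⟩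
    rwa [e] at this
  tfae_have 2 → 4 := by
    intro h
    by_contra hN
    obtain ⟨A, B, hA, hB, hAB⟩ := exists_pair hN
    exact hAB (h A B hA hB)
  tfae_have 3 → 4 := by
    intro h
    by_contra hN
    obtain ⟨A, B, hA, hB, hAB⟩ := exists_pair hN
    exact hAB (h _ (HM_union (HM_of_SHM hA) (HM_of_SHM hB)))
  tfae_have 4 → 1 := fun h A hA => shm_iUnion h A fun n => HM_of_SHM (hA n)
  tfae_have 4 → 3 := by
    intro h A hA
    have := shm_iUnion h (fun _ => A) fun _ => hA
    rwa [iUnion_const] at this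
  tfae_finish

theorem main (G : Type) [AddCommGroup G] [TopologicalSpace G] [IsTopologicalAddGroup G]
    [PolishSpace G] :
    List.TFAE [∀ A : ℕ → Set G, (∀ n, SHM (A n)) → SHM (⋃ n, A n),
      ∀ A B : Set G, SHM A → SHM B → SHM (A ∪ B),
      ∀ A : Set G, HM A → SHM A,
      LH G] :=
  transfer (fun G _ _ => List.TFAE [∀ A : ℕ → Set G, (∀ n, SHM (A n)) → SHM (⋃ n, A n),
      ∀ A B : Set G, SHM A → SHM B → SHM (A ∪ B),
      ∀ A : Set G, HM A → SHM A,
      LH G]) (fun G _ _ _ => main_normed G) G

end Pool.Agent.Lib.MP_056111_lc.CL
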