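import Mathlib

/-!
Every abelian Polish group has a compatible complete invariant metric.
-/

open Set Topology Filter Pointwise

namespace Pool.Agent.Lib.MP_056111_lc.CL

/-- A normed group homeomorphic to a complete metric space is complete. -/
theorem Norm_complete {G X : Type} [NormedAddCommGroup G] [MetricSpace X] [CompleteSpace X]
    (φ : G ≃ₜ X) : CompleteSpace G := by
  let ι : G → UniformSpace.Completion G := (↑)
  have hd : DenseRange ι := UniformSpace.Completion.denseRange_coe
  have hu : IsUniformInducing ι := UniformSpace.Completion.isUniformInducing_coe G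
  let O : ℕ → Set (UniformSpace.Completion G) := fun n =>
    ⋃₀ {V | IsOpen V ∧ ∀ a b : G, ι a ∈ V → ι b ∈ V → dist (φ a) (φ b) < 1 / ((n : ℝ) + 1)}
  have hO : ∀ n, IsOpen (O n) := fun n => isOpen_sUnion fun V hV => hV.1
  have hr : ∀ n, range ι ⊆ O n := by
    rintro n _ ⟨a, rfl⟩
    have hn : (0 : ℝ) < 1 / ((n : ℝ) + 1) / 2 := by positivity
    obtain ⟨δ, hδ, h⟩ := Metric.continuousAt_iff.1 (φ.continuous.continuousAt (x := a)) _ hn
    refine ⟨Metric.ball (ι a) δ, ⟨Metric.isOpen_ball, fun b c hb hc => ?_⟩, Metric.mem_ball_self hδ⟩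
    rw [Metric.mem_ball, UniformSpace.Completion.dist_eq] at hb hc
    have h1 := h hb
    have h2 := h hc
    have := dist_triangle_right (φ b) (φ c) (φ a)
    linarith
  have hD : ∀ n, Dense (O n) := fun n => hd.mono (hr n)
  have key : ∀ z, (∀ n, z ∈ O n) → z ∈ range ι := by
    intro z hz
    have hne : (comap ι (𝓝 z)).NeBot := (IsDenseInducing.mk hu.isInducing hd).comap_nhds_neBot z
    have hc : Cauchy (map φ (comap ι (𝓝 z))) := by
      refine Metric.cauchy_iff.2 ⟨hne.map _, fun ε hε => ?_⟩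
      obtain ⟨n, hn⟩ := exists_nat_one_div_lt hε
      obtain ⟨V, ⟨hV, hV'⟩, hzV⟩ := hz n
      refine ⟨φ '' (ι ⁻¹' V), image_mem_map (preimage_mem_comap (hV.mem_nhds hzV)), ?_⟩
      rintro _ ⟨a, ha, rfl⟩ _ ⟨b, hb, rfl⟩
      exact (hV' a b ha hb).trans hn
    obtain ⟨x, hx⟩ := CompleteSpace.complete hc
    have h1 : Tendsto id (comap ι (𝓝 z)) (𝓝 (φ.symm x)) := by
      have := (φ.symm.continuous.tendsto x).comp hx
      refine this.congr fun a => ?_
      simp
    have h2 : Tendsto ι (comap ι (𝓝 z)) (𝓝 (ι (φ.symm x))) :=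
      (hu.uniformContinuous.continuous.tendsto _).comp h1
    exact ⟨φ.symm x, tendsto_nhds_unique h2 tendsto_comap⟩
  have hs : Function.Surjective ι := by
    intro z
    have h1 : Dense (⋂ n, O n ∩ (Homeomorph.subLeft z) ⁻¹' O n) := by
      refine dense_iInter_of_isOpen_nat
        (fun n => (hO n).inter ((hO n).preimage (Homeomorph.continuous _))) fun n => ?_
      exact (hD n).inter_of_isOpen_left ((hD n).preimage (Homeomorph.isOpenMap _)) (hO n)
    obtain ⟨w, hw⟩ := h1.nonempty
    rw [mem_iInter] at hw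
    obtain ⟨a, ha⟩ := key w fun n => (hw n).1
    obtain ⟨b, hb⟩ := key (z - w) fun n => (hw n).2
    refine ⟨a + b, ?_⟩
    show ((a + b : G) : UniformSpace.Completion G) = z
    rw [UniformSpace.Completion.coe_add]
    show ι a + ι b = z
    rw [ha, hb, add_sub_cancel]
  exact hu.completeSpace (by rw [hs.range_eq]; exact isComplete_univ)

theorem Norm_dist (G : Type) [AddCommGroup G] [TopologicalSpace G] [IsTopologicalAddGroup G]
    [FirstCountableTopology G] : ∃ d : G → G → ℝ, (∀ x, d x x = 0) ∧ (∀ x y, d x y = d y x) ∧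
      (∀ x y z, d x z ≤ d x y + d y z) ∧ (∀ x y, 0 ≤ d x y) ∧
      (∀ ε > 0, ∃ U ∈ 𝓝 (0 : G), ∀ a b, b - a ∈ U → d a b < ε) ∧
      ∀ U ∈ 𝓝 (0 : G), ∃ ε > 0, ∀ a b, d a b < ε → b - a ∈ U := by
  let u : UniformSpace G := IsTopologicalAddGroup.rightUniformSpace G
  have hu : uniformity G = comap (fun p : G × G => p.2 + -p.1) (𝓝 0) := rfl
  have : IsCountablyGenerated (uniformity G) := by rw [hu]; infer_instance
  obtain ⟨I, hI⟩ := UniformSpace.metrizable_uniformity G
  have hm : ∀ s : Set (G × G), s ∈ comap (fun p : G × G => p.2 + -p.1) (𝓝 0) ↔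
      ∃ ε > 0, ∀ ⦃a b⦄, I.dist a b < ε → (a, b) ∈ s := by
    intro s
    rw [← hu, ← @Metric.mem_uniformity_dist G I s, hI]
  refine ⟨I.dist, I.dist_self, I.dist_comm, I.dist_triangle, fun x y => @dist_nonneg G I x y,
    fun ε hε => ?_, fun U hU => ?_⟩
  · obtain ⟨U, hU, h⟩ := (hm {p | I.dist p.1 p.2 < ε}).2 ⟨ε, hε, fun _ _ h => h⟩
    exact ⟨U, hU, fun a b hab => @h (a, b) (by rwa [sub_eq_add_neg] at hab)⟩
  · obtain ⟨ε, hε, h⟩ := (hm _).1 (preimage_mem_comap hU)
    exact ⟨ε, hε, fun a b hab => by rw [sub_eq_add_neg]; exact h hab⟩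

theorem Norm_norm (G : Type) [AddCommGroup G] [TopologicalSpace G] [IsTopologicalAddGroup G]
    [FirstCountableTopology G] [T1Space G] : ∃ ν : AddGroupNorm G,
      (𝓝 (0 : G)).HasBasis (fun ε : ℝ => 0 < ε) fun ε => {x | ν x < ε} := by
  obtain ⟨d, h0, hs, ht, hn, hA, hB⟩ := Norm_dist G
  let ν : G → ℝ := fun x => ⨆ g, min 1 (d (x + g) g)
  have hb : ∀ x, BddAbove (range fun g => min 1 (d (x + g) g)) := fun x =>
    ⟨1, by rintro _ ⟨g, rfl⟩; exact min_le_left _ _⟩
  have hle : ∀ x g, min 1 (d (x + g) g) ≤ ν x := fun x g => le_ciSup (hb x) g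
  have hnn : ∀ x, 0 ≤ ν x := fun x => (le_min zero_le_one (hn _ _)).trans (hle x 0)
  have hneg : ∀ x, ν (-x) ≤ ν x := fun x => ciSup_le fun g => by
    have := hle x (-x + g)
    rwa [add_neg_cancel_left, hs] at this
  have hbasis : (𝓝 (0 : G)).HasBasis (fun ε : ℝ => 0 < ε) fun ε => {x | ν x < ε} := by
    refine ⟨fun U => ⟨fun hU => ?_, ?_⟩⟩
    · obtain ⟨ε, hε, h⟩ := hB U hU
      refine ⟨min 1 ε, lt_min one_pos hε, fun x hx => ?_⟩
      have h1 : min 1 (d (x + 0) 0) < min 1 ε := (hle x 0).trans_lt hx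
      have h2 : d 0 x < ε := by
        rw [add_zero, hs] at h1
        by_contra h3
        exact absurd h1 (not_lt.2 (min_le_min le_rfl (not_lt.1 h3)))
      simpa using h 0 x h2
    · rintro ⟨ε, hε, hU⟩
      obtain ⟨V, hV, h⟩ := hA (ε / 2) (half_pos hε)
      refine mem_of_superset hV fun x hx => hU ?_
      refine lt_of_le_of_lt (ciSup_le fun g => (min_le_right _ _).trans ?_) (half_lt_self hε)
      rw [hs]
      exact (h g (x + g) (by simpa using hx)).le
  refine ⟨⟨⟨ν, ?_, fun x y => ?_, fun x => ?_⟩, fun x hx => ?_⟩, hbasis⟩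
  · refine le_antisymm (ciSup_le fun g => ?_) (hnn 0)
    rw [zero_add, h0]
    exact min_le_right _ _
  · refine ciSup_le fun g => ?_
    have h1 := hle x (y + g)
    have h2 := hle y g
    have h3 := ht (x + y + g) (y + g) g
    have h4 := hnn x
    have h5 := hnn y
    rw [← add_assoc] at h1
    rcases min_le_iff.1 h1 with h1 | h1
    · exact (min_le_left _ _).trans (by linarith)
    · rcases min_le_iff.1 h2 with h2 | h2
      · exact (min_le_left _ _).trans (by linarith)
      · exact (min_le_right _ _).trans (by linarith)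
  · refine le_antisymm (hneg x) ?_
    have := hneg (-x)
    rwa [neg_neg] at this
  · by_contra hne
    obtain ⟨ε, hε, h⟩ := hbasis.mem_iff.1 (compl_singleton_mem_nhds (Ne.symm hne))
    have hx' : ν x = 0 := hx
    exact h (show ν x < ε by rw [hx']; exact hε) rfl

theorem transfer (Q : ∀ (G : Type) [AddCommGroup G] [TopologicalSpace G], Prop)
    (h : ∀ (G : Type) [NormedAddCommGroup G] [CompleteSpace G] [SecondCountableTopology G], Q G)
    (G : Type) [AddCommGroup G] [TopologicalSpace G] [IsTopologicalAddGroup G] [PolishSpace G] :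
    Q G := by
  rename_i A t tg P
  obtain ⟨ν, hν⟩ := Norm_norm G
  obtain ⟨m, hm, hc⟩ := TopologicalSpace.IsCompletelyMetrizableSpace.complete (X := G)
  have hs : SecondCountableTopology G := inferInstance
  let N : NormedAddCommGroup G := ν.toNormedAddCommGroup
  have ht : t = N.toMetricSpace.toPseudoMetricSpace.toUniformSpace.toTopologicalSpace := by
    refine IsTopologicalAddGroup.ext tg (@SeminormedAddCommGroup.toIsTopologicalAddGroup G
      N.toSeminormedAddCommGroup) ?_
    refine hν.eq_of_same_basis ?_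
    exact @NormedAddGroup.nhds_zero_basis_norm_lt G N.toNormedAddGroup.toSeminormedAddGroup
  subst ht
  have hcN := @Norm_complete G G N m hc (@Homeomorph.mk G G _
    m.toPseudoMetricSpace.toUniformSpace.toTopologicalSpace (Equiv.refl G)
    (by rw [hm]; exact continuous_id) (by rw [hm]; exact continuous_id))
  exact @h G N hcN hs

end Pool.Agent.Lib.MP_056111_lc.CL
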