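import Pool.Agent.Lib.MP_056111_lc.CL.Defs

/-!
Consequences of the failure of the local condition.
-/

open Set Topology Filter Pointwise

namespace Pool.Agent.Lib.MP_056111_lc.CL

variable {G : Type} [NormedAddCommGroup G] [CompleteSpace G] [SecondCountableTopology G]

omit [CompleteSpace G] [SecondCountableTopology G] in
theorem Seq_compact {E : Set G} (h0 : (0 : G) ∈ E)
    (h : ∀ ε > 0, (E \ Metric.ball 0 ε).Finite) : IsCompact E := by
  rw [isCompact_iff_ultrafilter_le_nhds]
  intro f hf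
  by_cases hle : (f : Filter G) ≤ 𝓝 0
  · exact ⟨0, h0, hle⟩
  · rw [Metric.nhds_basis_ball.ge_iff] at hle
    push Not at hle
    obtain ⟨ε, hε, hb⟩ := hle
    have h1 : E \ Metric.ball 0 ε ∈ f :=
      inter_mem (le_principal_iff.1 hf) (Ultrafilter.compl_mem_iff_notMem.2 hb)
    obtain ⟨a, ha, rfl⟩ := Ultrafilter.eq_pure_of_finite_mem (h ε hε) h1
    exact ⟨a, ha.1, pure_le_nhds a⟩

omit [CompleteSpace G] [SecondCountableTopology G] in
theorem Seq_esc (h : ¬ LH G) :
    ∃ E : Set G, E.Countable ∧ IsCompact E ∧ (0 : G) ∈ E ∧ Esc E := by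
  rw [LH] at h
  push Not at h
  obtain ⟨D, hD, hfail⟩ := h
  have hp : ∀ i : ℕ, (0 : ℝ) < (1 / 2) ^ i := fun i => by positivity
  choose A hAf hA using fun i : ℕ =>
    Metric.totallyBounded_iff.1 hD.totallyBounded ((1 / 2) ^ i) (hp i)
  let Δ : ℕ → Set G := fun i =>
    {e | e ∈ A i ∪ image2 (fun a b => a - b) (A (i + 1)) (A i) ∧ ‖e‖ < 2 * (1 / 2) ^ i}
  have hΔ : ∀ i, (Δ i).Finite := fun i =>
    ((hAf i).union ((hAf (i + 1)).image2 _ (hAf i))).subset fun e he => he.1
  have hanti : ∀ {i k : ℕ}, i ≤ k → ((1 / 2 : ℝ)) ^ k ≤ (1 / 2) ^ i := fun hik =>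
    pow_le_pow_of_le_one (by norm_num) (by norm_num) hik
  refine ⟨insert 0 (⋃ i, Δ i), (countable_iUnion fun i => (hΔ i).countable).insert _,
    Seq_compact (mem_insert _ _) fun ε hε => ?_, mem_insert _ _, ?_⟩
  · obtain ⟨n, hn⟩ := exists_pow_lt_of_lt_one (half_pos hε) (by norm_num : (1 / 2 : ℝ) < 1)
    refine ((finite_lt_nat n).biUnion fun i _ => hΔ i).subset ?_
    rintro e ⟨rfl | he, hb⟩
    · exact absurd (Metric.mem_ball_self hε) hb
    · obtain ⟨i, hi⟩ := mem_iUnion.1 he
      refine mem_biUnion (show i < n from ?_) hi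
      by_contra hc
      have h1 := hanti (not_lt.1 hc)
      have h2 := hi.2
      exact hb (mem_ball_zero_iff.2 (by linarith))
  · intro C hC x hx r hr
    by_contra hc
    push Not at hc
    obtain ⟨i, hi⟩ := exists_pow_lt_of_lt_one (by positivity : 0 < r / 3)
      (by norm_num : (1 / 2 : ℝ) < 1)
    obtain ⟨x', ⟨⟨y, hy, rfl⟩, hyU⟩, d, ⟨hd, hdU⟩, hn⟩ :=
      hfail (Metric.ball 0 ((1 / 2) ^ i)) (Metric.ball_mem_nhds _ (hp i)) ((fun z => z - x) '' C)
        (hC.image (continuous_id.sub continuous_const)) ⟨x, hx, sub_self x⟩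
    rw [mem_ball_zero_iff] at hyU hdU
    change ‖y - x‖ < _ at hyU
    have ha : ∀ k : ℕ, ∃ a ∈ A k, ‖d - a‖ < (1 / 2) ^ k := fun k => by
      obtain ⟨a, h1, h2⟩ := mem_iUnion₂.1 (hA k hd)
      exact ⟨a, h1, by rwa [Metric.mem_ball, dist_eq_norm] at h2⟩
    choose a haA ha using ha
    have hna : ∀ k, ‖a k‖ ≤ ‖d‖ + ‖d - a k‖ := fun k => by
      have := norm_sub_le d (d - a k)
      rwa [sub_sub_cancel] at this
    have key : ∀ k, i ≤ k → y + a k ∈ C := by
      intro k hk
      induction k, hk using Nat.le_induction with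
      | base =>
        have h1 := hna i
        have h2 := ha i
        have h3 := hp i
        exact hc y hy (by linarith) _
          (Or.inr (mem_iUnion.2 ⟨i, Or.inl (haA i), by linarith⟩)) (by linarith)
      | succ k hk ih =>
        have h1 := hna k
        have h2 := ha k
        have h3 := ha (k + 1)
        have h4 := hanti hk
        have h5 : ((1 / 2 : ℝ)) ^ (k + 1) ≤ (1 / 2) ^ k := hanti (Nat.le_succ k)
        have h6 : ‖a (k + 1) - a k‖ ≤ ‖d - a k‖ + ‖d - a (k + 1)‖ := by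
          have := norm_sub_le (d - a k) (d - a (k + 1))
          rwa [show d - a k - (d - a (k + 1)) = a (k + 1) - a k by abel] at this
        have h7 : ‖y + a k - x‖ ≤ ‖y - x‖ + ‖a k‖ := by
          have := norm_add_le (y - x) (a k)
          rwa [show y - x + a k = y + a k - x by abel] at this
        have h8 := hp i
        have := hc _ ih (by linarith) (a (k + 1) - a k)
          (Or.inr (mem_iUnion.2 ⟨k, Or.inr (mem_image2_of_mem (haA _) (haA _)), by linarith⟩))
          (by linarith)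
        rwa [show y + a k + (a (k + 1) - a k) = y + a (k + 1) by abel] at this
    refine hn ⟨y + d, ?_, (by abel : y + d - x = y - x + d)⟩
    rw [← hC.isClosed.closure_eq, Metric.mem_closure_iff]
    intro ε hε
    obtain ⟨n, hn'⟩ := exists_pow_lt_of_lt_one hε (by norm_num : (1 / 2 : ℝ) < 1)
    refine ⟨y + a (max i n), key _ (le_max_left _ _), ?_⟩
    rw [dist_eq_norm, add_sub_add_left_eq_sub]
    exact (ha _).trans_le ((hanti (le_max_right _ _)).trans hn'.le)

omit [SecondCountableTopology G] in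
theorem Seq_far (h : ¬ LH G) : Far G := by
  by_contra hc
  rw [Far] at hc
  push Not at hc
  obtain ⟨r, hr, hc⟩ := hc
  have htb : TotallyBounded (Metric.ball (0 : G) r) := by
    rw [Metric.totallyBounded_iff]
    intro ε hε
    obtain ⟨K, hK, hK'⟩ := hc (ε / 2) (half_pos hε)
    obtain ⟨t, ht, hcov⟩ := Metric.totallyBounded_iff.1 hK.totallyBounded (ε / 2) (half_pos hε)
    refine ⟨t, ht, fun τ hτ => ?_⟩
    obtain ⟨k, hk, h1⟩ := hK' τ (mem_ball_zero_iff.1 hτ)
    obtain ⟨y, hy, h2⟩ := mem_iUnion₂.1 (hcov hk)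
    refine mem_iUnion₂.2 ⟨y, hy, ?_⟩
    rw [Metric.mem_ball] at h2 ⊢
    have := dist_triangle τ k y
    rw [dist_eq_norm τ k] at this
    linarith
  refine h fun D _ => ⟨Metric.ball 0 (r / 2), Metric.ball_mem_nhds _ (half_pos hr),
    closure (Metric.ball 0 r), htb.closure.isCompact_of_isClosed isClosed_closure,
    subset_closure (Metric.mem_ball_self hr), fun x hx d hd => subset_closure ?_⟩
  have h1 := mem_ball_zero_iff.1 hx.2
  have h2 := mem_ball_zero_iff.1 hd.2
  have h3 := norm_add_le x d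
  exact mem_ball_zero_iff.2 (by linarith)

set_option linter.unusedSectionVars false in
theorem exists_esc (h : ¬ LH G) :
    ∃ E : Set G, E.Countable ∧ IsCompact E ∧ (0 : G) ∈ E ∧ Esc E :=
  Seq_esc h

set_option linter.unusedSectionVars false in
theorem far_of_not_LH (h : ¬ LH G) : Far G :=
  Seq_far h

end Pool.Agent.Lib.MP_056111_lc.CL
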