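import Pool.Agent.Lib.MP_056111_lc.CL.Defs

/-!
Infinite sums of compact sets, and isolated points of countable compact sets.
-/

open Set Topology Filter Pointwise

namespace Pool.Agent.Lib.MP_056111_lc.CL

variable {G : Type} [NormedAddCommGroup G] [CompleteSpace G]

theorem Tail_bound (b : ℕ → ℝ) (hb2 : ∀ j, b (j + 1) ≤ b j / 2) (j i : ℕ) :
    b (j + i) ≤ b j * (1 / 2) ^ i := by
  induction i with
  | zero => simp
  | succ i ih =>
    have := hb2 (j + i)
    rw [pow_succ, ← add_assoc]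
    linarith

theorem exists_tails (F : ℕ → Set G) (b : ℕ → ℝ) (hF : ∀ j, IsCompact (F j))
    (h0 : ∀ j, (0 : G) ∈ F j) (hb : ∀ j, ∀ x ∈ F j, ‖x‖ ≤ b j) (hb2 : ∀ j, b (j + 1) ≤ b j / 2) :
    ∃ T : ℕ → Set G, ∀ j, IsCompact (T j) ∧ (0 : G) ∈ T j ∧ T j = F j + T (j + 1) ∧
      ∀ x ∈ T j, ‖x‖ ≤ 2 * b j := by
  have hs : ∀ j, Summable fun i : ℕ => b j * (1 / 2 : ℝ) ^ i := fun j =>
    summable_geometric_two.mul_left _
  have hu : ∀ j (u : ℕ → G), u ∈ Set.pi univ (fun i => F (j + i)) → ∀ i,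
      ‖u i‖ ≤ b j * (1 / 2) ^ i := fun j u h i =>
    (hb _ _ (h i trivial)).trans (Tail_bound b hb2 j i)
  have hsum : ∀ j (u : ℕ → G), u ∈ Set.pi univ (fun i => F (j + i)) → Summable u :=
    fun j u h => Summable.of_norm_bounded (hs j) (hu j u h)
  refine ⟨fun j => (fun u : ℕ → G => ∑' i, u i) '' Set.pi univ (fun i => F (j + i)),
    fun j => ⟨?_, ?_, ?_, ?_⟩⟩
  · refine (isCompact_univ_pi fun i => hF (j + i)).image_of_continuousOn ?_
    exact continuousOn_tsum (fun i => (continuous_apply i).continuousOn) (hs j)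
      fun i u h => hu j u h i
  · exact ⟨0, fun i _ => h0 _, by simp⟩
  · ext x
    constructor
    · rintro ⟨u, h, rfl⟩
      refine ⟨u 0, h 0 trivial, ∑' i, u (i + 1), ⟨fun i => u (i + 1), fun i _ => ?_, rfl⟩, ?_⟩
      · have : u (i + 1) ∈ F (j + (i + 1)) := h (i + 1) trivial
        rwa [show j + (i + 1) = j + 1 + i by omega] at this
      · exact ((hsum j u h).tsum_eq_zero_add).symm
    · rintro ⟨y, hy, _, ⟨v, hv, rfl⟩, rfl⟩
      have hmem : (fun i => Nat.casesOn i y v : ℕ → G) ∈ Set.pi univ (fun i => F (j + i)) := by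
        intro i _
        cases i with
        | zero => exact hy
        | succ i =>
          have : v i ∈ F (j + 1 + i) := hv i trivial
          rwa [show j + 1 + i = j + (i + 1) by omega] at this
      exact ⟨_, hmem, (hsum j _ hmem).tsum_eq_zero_add⟩
  · rintro _ ⟨u, h, rfl⟩
    have h1 : HasSum (fun i : ℕ => b j * (1 / 2 : ℝ) ^ i) (b j * 2) :=
      hasSum_geometric_two.mul_left _
    have := tsum_of_norm_bounded h1 (hu j u h)
    linarith

omit [CompleteSpace G] in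
theorem Tail_iso {S : Set G} (hc : S.Countable) (hS : IsCompact S) {ε : ℝ} (hε : 0 < ε)
    {p : G} (hp : p ∈ S) :
    ∃ y ∈ S, ‖p - y‖ < ε ∧ ∃ η > 0, ∀ q ∈ S, ‖q - y‖ < η → q = y := by
  have : CompactSpace S := isCompact_iff_compactSpace.1 hS
  have : Countable S := hc.to_subtype
  by_contra hcon
  set U : Set S := Metric.ball ⟨p, hp⟩ ε with hU
  have hd : Dense (⋂ y ∈ U, ({y}ᶜ : Set S)) := by
    refine dense_biInter_of_isOpen (fun y _ => isOpen_compl_singleton) (to_countable U)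
      fun y hy => dense_compl_singleton_iff_not_open.2 fun ho => hcon ?_
    obtain ⟨η, hη, hsub⟩ := Metric.isOpen_iff.1 ho y rfl
    refine ⟨y, y.2, ?_, η, hη, fun q hq hlt => ?_⟩
    · have : dist y ⟨p, hp⟩ < ε := hy
      rwa [Subtype.dist_eq, dist_comm, dist_eq_norm] at this
    · have : (⟨q, hq⟩ : S) ∈ Metric.ball y η := by
        rw [Metric.mem_ball, Subtype.dist_eq, dist_eq_norm]
        exact hlt
      exact congrArg Subtype.val (hsub this)
  obtain ⟨z, hz, hz'⟩ := hd.inter_open_nonempty U Metric.isOpen_ball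
    ⟨⟨p, hp⟩, Metric.mem_ball_self hε⟩
  exact (mem_iInter₂.1 hz' z hz) rfl

theorem exists_iso {S : Set G} (hc : S.Countable) (hS : IsCompact S) {ε : ℝ} (hε : 0 < ε) :
    ∃ η > 0, ∀ p ∈ S, ∃ y ∈ S, ‖p - y‖ < ε ∧ ∀ q ∈ S, ‖q - y‖ < η → q = y := by
  have h := fun p : S => Tail_iso hc hS hε p.2
  choose y hy hd η hη hiso using h
  obtain ⟨t, ht⟩ := hS.elim_nhds_subcover' (fun p hp => Metric.ball (y ⟨p, hp⟩) ε)
    (fun p hp => Metric.isOpen_ball.mem_nhds (by
      rw [Metric.mem_ball, dist_eq_norm]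
      exact hd ⟨p, hp⟩))
  have hev : ∀ᶠ r in 𝓝[>] (0 : ℝ), ∀ p ∈ t, r < η p :=
    (eventually_all_finset t).2 fun p _ =>
      mem_nhdsWithin_of_mem_nhds (Iio_mem_nhds (hη p))
  obtain ⟨r, hr, hr0⟩ := (hev.and self_mem_nhdsWithin).exists
  refine ⟨r, hr0, fun p hp => ?_⟩
  obtain ⟨x, hx, hpx⟩ := mem_iUnion₂.1 (ht hp)
  refine ⟨y x, hy x, ?_, fun q hq hlt => hiso x q hq (hlt.trans (hr x hx))⟩
  rwa [Metric.mem_ball, dist_eq_norm] at hpx

end Pool.Agent.Lib.MP_056111_lc.CL
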