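import Pool.Agent.Lib.MP_056111_lc.CL.Defs

/-!
A locally invariant compact set is a strong witness.
-/

open Set Topology Filter Pointwise

namespace Pool.Agent.Lib.MP_056111_lc.CL

variable {G : Type} [NormedAddCommGroup G] [CompleteSpace G] [SecondCountableTopology G]

theorem witness {K : Type} [MetricSpace K] [CompactSpace K] {f : K → G} (hf : Continuous f)
    (k0 : K) {B : Set G} (hB : @MeasurableSet G (borel G) B)
    (hm : ∀ g : G, IsMeagre (f ⁻¹' ((fun b => b + g) '' B)))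
    {C : Set G} (hC : IsCompact C) {ρ η : ℝ} (hη : 0 < η)
    (hinv : ∀ x ∈ C, ‖x‖ < ρ → ∀ k, ‖f k - f k0‖ < η →
      x + (f k - f k0) ∈ C ∧ x - (f k - f k0) ∈ C) (g : G) :
    IsMeagre {x : closure (C ∩ Metric.ball 0 ρ) | (x : G) ∈ (fun b => b + g) '' B} := by
  borelize G
  have hsub : closure (C ∩ Metric.ball 0 ρ) ⊆ C :=
    closure_minimal inter_subset_left hC.isClosed
  have hcl : IsClosed (closure (C ∩ Metric.ball (0 : G) ρ)) := isClosed_closure
  have : CompleteSpace (closure (C ∩ Metric.ball (0 : G) ρ)) := hcl.completeSpace_coe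
  have hS : MeasurableSet
      {x : closure (C ∩ Metric.ball 0 ρ) | (x : G) ∈ (fun b => b + g) '' B} := by
    rw [image_add_right]
    exact ((continuous_subtype_val.add continuous_const).measurable) hB
  obtain ⟨O, hO, hSO⟩ := hS.baireMeasurableSet.residualEq_isOpen
  by_contra hn
  have hne : O.Nonempty := by
    rw [nonempty_iff_ne_empty]
    rintro rfl
    refine hn (mem_of_superset hSO fun x hx hx' => ?_)
    exact (hx : _ = _).mp hx'
  obtain ⟨𝒮, ho, hd, hc, hs⟩ := mem_residual_iff.1 hSO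
  obtain ⟨x₁, δ, hδ, hx₁C, hball, hδO⟩ : ∃ (x₁ : G) (δ : ℝ), 0 < δ ∧ x₁ ∈ C ∧
      (∀ y : G, ‖y - x₁‖ < δ → ‖y‖ < ρ) ∧
      ∀ y : closure (C ∩ Metric.ball (0 : G) ρ), ‖(y : G) - x₁‖ < δ → y ∈ O := by
    obtain ⟨O', hO', rfl⟩ := isOpen_induced_iff.1 hO
    obtain ⟨z, hz⟩ := hne
    obtain ⟨x₁, h1, h2, h3⟩ := mem_closure_iff.1 z.2 O' hO' hz
    obtain ⟨δ, hδ, hb⟩ := Metric.isOpen_iff.1 (hO'.inter Metric.isOpen_ball) x₁ ⟨h1, h3⟩
    refine ⟨x₁, δ, hδ, h2, fun y hy => ?_, fun y hy => ?_⟩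
    · exact mem_ball_zero_iff.1 (hb (mem_ball_iff_norm.2 hy)).2
    · exact (hb (mem_ball_iff_norm.2 hy)).1
  have hin : ∀ y ∈ C, ‖y - x₁‖ < δ → y ∈ closure (C ∩ Metric.ball (0 : G) ρ) :=
    fun y h1 h2 => subset_closure ⟨h1, mem_ball_zero_iff.2 (hball y h2)⟩
  have hlift : ∀ t : 𝒮, ∃ T : Set G, IsOpen T ∧ Subtype.val ⁻¹' T = t.1 :=
    fun t => isOpen_induced_iff.1 (ho t.1 t.2)
  choose T hTo hT using hlift
  have := hc.to_subtype
  obtain ⟨ε, hε, hεη, hεδ⟩ : ∃ ε : ℝ, 0 < ε ∧ ε ≤ η ∧ ε ≤ δ / 4 :=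
    ⟨min η (δ / 4), lt_min hη (by positivity), min_le_left _ _, min_le_right _ _⟩
  have he : Continuous fun k => f k - f k0 := hf.sub continuous_const
  obtain ⟨Q, hQc, hQd⟩ := TopologicalSpace.exists_countable_dense K
  have := (hQc.mono (inter_subset_left (t := {k | ‖f k - f k0‖ < ε}))).to_subtype
  have hU : Dense (⋂ p : (Q ∩ {k | ‖f k - f k0‖ < ε} : Set K) × 𝒮,
      {x : closure (C ∩ Metric.ball (0 : G) ρ) |
        δ / 2 < ‖(x : G) - x₁‖ ∨ (x : G) + (f p.1 - f k0) ∈ T p.2}) := by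
    refine dense_iInter_of_isOpen (fun p => ?_) fun p => ?_
    · exact (isOpen_lt continuous_const (continuous_subtype_val.sub continuous_const).norm).union
        ((hTo p.2).preimage (continuous_subtype_val.add continuous_const))
    · rw [Metric.dense_iff]
      intro x r hr
      by_cases hx : δ / 2 < ‖(x : G) - x₁‖
      · exact ⟨x, Metric.mem_ball_self hr, Or.inl hx⟩
      have hk : ‖f p.1 - f k0‖ < ε := p.1.2.2
      rw [not_lt] at hx
      have a1 := (hinv x (hsub x.2) (hball x (by linarith)) p.1 (by linarith)).1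
      have a2 : ‖(x : G) + (f p.1 - f k0) - x₁‖ < 3 * δ / 4 := by
        have e : (x : G) + (f p.1 - f k0) - x₁ = ((x : G) - x₁) + (f p.1 - f k0) := by abel
        rw [e]
        linarith [norm_add_le ((x : G) - x₁) (f p.1 - f k0)]
      obtain ⟨y, hy1, hy2⟩ := Metric.dense_iff.1 (hd p.2.1 p.2.2)
        ⟨_, hin _ a1 (by linarith)⟩ (min r (δ / 4)) (lt_min hr (by positivity))
      have a3 : ‖(y : G) - ((x : G) + (f p.1 - f k0))‖ < min r (δ / 4) := by
        rw [← dist_eq_norm]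
        exact hy1
      obtain ⟨a4, a5⟩ := lt_min_iff.1 a3
      have a6 : ‖(y : G) - x₁‖ < δ := by
        linarith [norm_sub_le_norm_sub_add_norm_sub (y : G) ((x : G) + (f p.1 - f k0)) x₁]
      have a7 := (hinv y (hsub y.2) (hball y a6) p.1 (by linarith)).2
      have e : (y : G) - (f p.1 - f k0) - x = (y : G) - ((x : G) + (f p.1 - f k0)) := by abel
      have a8 : ‖(y : G) - (f p.1 - f k0) - x₁‖ < δ := by
        have := norm_sub_le_norm_sub_add_norm_sub ((y : G) - (f p.1 - f k0)) x x₁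
        rw [e] at this
        linarith
      refine ⟨⟨_, hin _ a7 a8⟩, ?_, Or.inr ?_⟩
      · rw [Metric.mem_ball, Subtype.dist_eq, dist_eq_norm, e]
        exact a4
      · rw [← hT p.2] at hy2
        simpa using hy2
  obtain ⟨x, hx1, hx2⟩ := hU.inter_open_nonempty
    {x : closure (C ∩ Metric.ball (0 : G) ρ) | ‖(x : G) - x₁‖ < δ / 2}
    (isOpen_lt (by fun_prop) continuous_const)
    ⟨⟨x₁, hin x₁ hx₁C (by simpa using hδ)⟩, by simpa using hδ⟩
  have hx1' : ‖(x : G) - x₁‖ < δ / 2 := hx1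
  have hV : (⋂ t : 𝒮, {k : K | ε / 2 < ‖f k - f k0‖ ∨ (x : G) + (f k - f k0) ∈ T t}) ∈
      residual K := by
    refine countable_iInter_mem.2 fun t => residual_of_dense_open ?_ ?_
    · exact (isOpen_lt continuous_const he.norm).union
        ((hTo t).preimage (continuous_const.add he))
    · rw [dense_iff_inter_open]
      rintro V hV ⟨k, hk⟩
      by_cases h : ε / 2 < ‖f k - f k0‖
      · exact ⟨k, hk, Or.inl h⟩
      obtain ⟨q, hq1, hq2⟩ := hQd.inter_open_nonempty (V ∩ {k | ‖f k - f k0‖ < ε})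
        (hV.inter (isOpen_lt he.norm continuous_const))
        ⟨k, hk, show ‖f k - f k0‖ < ε by linarith [not_lt.1 h]⟩
      rcases mem_iInter.1 hx2 (⟨q, hq2, hq1.2⟩, t) with h' | h'
      · exact absurd h' (not_lt.2 hx1'.le)
      · exact ⟨q, hq1.1, Or.inr h'⟩
  obtain ⟨k, hk1, hk2, hk3⟩ :=
    (dense_of_mem_residual (inter_mem hV (hm (g + f k0 - x)))).inter_open_nonempty
      {k | ‖f k - f k0‖ < ε / 2} (isOpen_lt he.norm continuous_const) ⟨k0, by simpa using hε⟩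
  have hk1' : ‖f k - f k0‖ < ε / 2 := hk1
  have b1 := (hinv x (hsub x.2) (hball x (by linarith)) k (by linarith)).1
  have b2 : ‖(x : G) + (f k - f k0) - x₁‖ < δ := by
    have e : (x : G) + (f k - f k0) - x₁ = ((x : G) - x₁) + (f k - f k0) := by abel
    rw [e]
    linarith [norm_add_le ((x : G) - x₁) (f k - f k0)]
  have b3 : (⟨_, hin _ b1 b2⟩ : closure (C ∩ Metric.ball (0 : G) ρ)) ∈ ⋂₀ 𝒮 := by
    intro t ht
    have b4 := hT ⟨t, ht⟩
    simp only at b4
    rw [← b4]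
    rcases mem_iInter.1 hk2 ⟨t, ht⟩ with h' | h'
    · exact absurd h' (not_lt.2 hk1'.le)
    · exact h'
  have b5 := hs b3
  have b6 := hδO ⟨_, hin _ b1 b2⟩ b2
  obtain ⟨b, hb, he'⟩ : (x : G) + (f k - f k0) ∈ (fun b => b + g) '' B := (b5 : _ = _).mpr b6
  refine hk3 ⟨b, hb, ?_⟩
  have he'' : b + g = (x : G) + (f k - f k0) := he'
  simp only
  rw [← add_sub_assoc, ← add_assoc, he'']
  abel

end Pool.Agent.Lib.MP_056111_lc.CL
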